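import Pool.Agent.H933R2.Hopf.Defs

/-!
# Change of frame for curvature tensors in dimension six
-/

set_option autoImplicit false

open scoped BigOperators
open Hopf6

namespace Pool.Agent.H38HP

/-- coordinate vectors -/
abbrev E6 : Type := Fin 6 → ℝ

/-- the 4-linear form with components `R` -/
noncomputable def L4 (R : Ten) (u v w z : E6) : ℝ :=
  ∑ i, ∑ j, ∑ k, ∑ l, u i * v j * w k * z l * R i j k l

/-- the components of `R` in the frame given by the columns of `A` -/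
noncomputable def act (A : Matrix (Fin 6) (Fin 6) ℝ) (R : Ten) : Ten :=
  fun a b c d => L4 R (fun i => A i a) (fun i => A i b) (fun i => A i c) (fun i => A i d)

section lin
variable (R : Ten)

theorem L4_add1 (u u' v w z : E6) : L4 R (u + u') v w z = L4 R u v w z + L4 R u' v w z := by
  simp only [L4, Pi.add_apply, add_mul, Finset.sum_add_distrib]

theorem L4_smul1 (t : ℝ) (u v w z : E6) : L4 R (t • u) v w z = t * L4 R u v w z := by
  simp only [L4, Pi.smul_apply, smul_eq_mul, Finset.mul_sum]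
  refine Finset.sum_congr rfl fun i _ => Finset.sum_congr rfl fun j _ =>
    Finset.sum_congr rfl fun k _ => Finset.sum_congr rfl fun l _ => ?_
  ring

theorem L4_add2 (u v v' w z : E6) : L4 R u (v + v') w z = L4 R u v w z + L4 R u v' w z := by
  simp only [L4, Pi.add_apply, mul_add, add_mul, Finset.sum_add_distrib]

theorem L4_smul2 (t : ℝ) (u v w z : E6) : L4 R u (t • v) w z = t * L4 R u v w z := by
  simp only [L4, Pi.smul_apply, smul_eq_mul, Finset.mul_sum]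
  refine Finset.sum_congr rfl fun i _ => Finset.sum_congr rfl fun j _ =>
    Finset.sum_congr rfl fun k _ => Finset.sum_congr rfl fun l _ => ?_
  ring

theorem L4_add3 (u v w w' z : E6) : L4 R u v (w + w') z = L4 R u v w z + L4 R u v w' z := by
  simp only [L4, Pi.add_apply, mul_add, add_mul, Finset.sum_add_distrib]

theorem L4_smul3 (t : ℝ) (u v w z : E6) : L4 R u v (t • w) z = t * L4 R u v w z := by
  simp only [L4, Pi.smul_apply, smul_eq_mul, Finset.mul_sum]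
  refine Finset.sum_congr rfl fun i _ => Finset.sum_congr rfl fun j _ =>
    Finset.sum_congr rfl fun k _ => Finset.sum_congr rfl fun l _ => ?_
  ring

theorem L4_add4 (u v w z z' : E6) : L4 R u v w (z + z') = L4 R u v w z + L4 R u v w z' := by
  simp only [L4, Pi.add_apply, mul_add, add_mul, Finset.sum_add_distrib]

theorem L4_smul4 (t : ℝ) (u v w z : E6) : L4 R u v w (t • z) = t * L4 R u v w z := by
  simp only [L4, Pi.smul_apply, smul_eq_mul, Finset.mul_sum]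
  refine Finset.sum_congr rfl fun i _ => Finset.sum_congr rfl fun j _ =>
    Finset.sum_congr rfl fun k _ => Finset.sum_congr rfl fun l _ => ?_
  ring

/-- bilinear in the first two arguments -/
noncomputable def B12 (w z : E6) : E6 →ₗ[ℝ] E6 →ₗ[ℝ] ℝ :=
  LinearMap.mk₂ ℝ (fun u v => L4 R u v w z) (fun _ _ _ => L4_add1 R _ _ _ _ _)
    (fun _ _ _ => L4_smul1 R _ _ _ _ _) (fun _ _ _ => L4_add2 R _ _ _ _ _)
    (fun _ _ _ => L4_smul2 R _ _ _ _ _)

/-- bilinear in the last two arguments -/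
noncomputable def B34 (u v : E6) : E6 →ₗ[ℝ] E6 →ₗ[ℝ] ℝ :=
  LinearMap.mk₂ ℝ (fun w z => L4 R u v w z) (fun _ _ _ => L4_add3 R _ _ _ _ _)
    (fun _ _ _ => L4_smul3 R _ _ _ _ _) (fun _ _ _ => L4_add4 R _ _ _ _ _)
    (fun _ _ _ => L4_smul4 R _ _ _ _ _)

@[simp] theorem B12_apply (u v w z : E6) : B12 R w z u v = L4 R u v w z := rfl
@[simp] theorem B34_apply (u v w z : E6) : B34 R u v w z = L4 R u v w z := rfl

end lin

/-- product of three bilinear forms -/
noncomputable def M6 (L1 L2 L3 : E6 →ₗ[ℝ] E6 →ₗ[ℝ] ℝ) : MultilinearMap ℝ (fun _ : Fin 6 => E6) ℝ where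
  toFun x := L1 (x 0) (x 1) * L2 (x 2) (x 3) * L3 (x 4) (x 5)
  map_update_add' := by
    intro inst x i a b
    obtain rfl : inst = instDecidableEqFin 6 := Subsingleton.elim _ _
    fin_cases i <;> simp <;> ring
  map_update_smul' := by
    intro inst x i c a
    obtain rfl : inst = instDecidableEqFin 6 := Subsingleton.elim _ _
    fin_cases i <;> simp <;> ring

theorem M6_alt (L1 L2 L3 : E6 →ₗ[ℝ] E6 →ₗ[ℝ] ℝ) (x : Fin 6 → E6) :
    ∑ σ : Equiv.Perm (Fin 6), ((Equiv.Perm.sign σ : ℤ) : ℝ) *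
      (L1 (x (σ 0)) (x (σ 1)) * L2 (x (σ 2)) (x (σ 3)) * L3 (x (σ 4)) (x (σ 5))) =
    (Matrix.of x).det * ∑ σ : Equiv.Perm (Fin 6), ((Equiv.Perm.sign σ : ℤ) : ℝ) *
      (L1 (Pi.single (σ 0) 1) (Pi.single (σ 1) 1) * L2 (Pi.single (σ 2) 1) (Pi.single (σ 3) 1) *
        L3 (Pi.single (σ 4) 1) (Pi.single (σ 5) 1)) := by
  have h := AlternatingMap.eq_smul_basis_det (Pi.basisFun ℝ (Fin 6))
    (MultilinearMap.alternatization (M6 L1 L2 L3))
  have h2 := congrArg (fun f => f x) h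
  simp only [AlternatingMap.smul_apply, smul_eq_mul, MultilinearMap.alternatization_apply] at h2
  have h3 : ∀ y : Fin 6 → E6, ∑ σ : Equiv.Perm (Fin 6), Equiv.Perm.sign σ •
      (MultilinearMap.domDomCongr σ (M6 L1 L2 L3)) y = ∑ σ : Equiv.Perm (Fin 6),
      ((Equiv.Perm.sign σ : ℤ) : ℝ) *
      (L1 (y (σ 0)) (y (σ 1)) * L2 (y (σ 2)) (y (σ 3)) * L3 (y (σ 4)) (y (σ 5))) := by
    intro y
    refine Finset.sum_congr rfl fun σ _ => ?_
    rw [Units.smul_def, zsmul_eq_mul]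
    rfl
  rw [h3 x, h3 (fun i => Pi.basisFun ℝ (Fin 6) i)] at h2
  rw [h2, Pi.basisFun_det, mul_comm]
  simp only [Pi.basisFun_apply]
  have hd : Matrix.detRowAlternating x = (Matrix.of x).det := by
    unfold Matrix.det
    congr 1
  rw [hd]


/-- `R` in the standard frame -/
theorem L4_single (R : Ten) (a b c d : Fin 6) :
    L4 R (Pi.single a 1) (Pi.single b 1) (Pi.single c 1) (Pi.single d 1) = R a b c d := by
  unfold L4
  simp [Pi.single_apply]

/-- **change of frame** -/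
theorem gb_act (A : Matrix (Fin 6) (Fin 6) ℝ) (R : Ten) : gb (act A R) = A.det ^ 2 * gb R := by
  set x : Fin 6 → E6 := fun a i => A i a with hx
  have hdet : (Matrix.of x).det = A.det := by
    rw [← Matrix.det_transpose A]
    rfl
  have h1 : gb (act A R) = ∑ τ : Equiv.Perm (Fin 6), ((Equiv.Perm.sign τ : ℤ) : ℝ) *
      ∑ σ : Equiv.Perm (Fin 6), ((Equiv.Perm.sign σ : ℤ) : ℝ) *
        (B12 R (x (τ 0)) (x (τ 1)) (x (σ 0)) (x (σ 1)) *
          B12 R (x (τ 2)) (x (τ 3)) (x (σ 2)) (x (σ 3)) *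
          B12 R (x (τ 4)) (x (τ 5)) (x (σ 4)) (x (σ 5))) := by
    unfold gb
    rw [Finset.sum_comm]
    refine Finset.sum_congr rfl fun τ _ => ?_
    rw [Finset.mul_sum]
    refine Finset.sum_congr rfl fun σ _ => ?_
    simp only [B12_apply, act, hx]
    ring
  have h2 : gb R = ∑ σ : Equiv.Perm (Fin 6), ((Equiv.Perm.sign σ : ℤ) : ℝ) *
      ∑ τ : Equiv.Perm (Fin 6), ((Equiv.Perm.sign τ : ℤ) : ℝ) *
        (B34 R (Pi.single (σ 0) 1) (Pi.single (σ 1) 1) (Pi.single (τ 0) 1) (Pi.single (τ 1) 1) *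
          B34 R (Pi.single (σ 2) 1) (Pi.single (σ 3) 1) (Pi.single (τ 2) 1) (Pi.single (τ 3) 1) *
          B34 R (Pi.single (σ 4) 1) (Pi.single (σ 5) 1) (Pi.single (τ 4) 1)
            (Pi.single (τ 5) 1)) := by
    unfold gb
    refine Finset.sum_congr rfl fun σ _ => ?_
    rw [Finset.mul_sum]
    refine Finset.sum_congr rfl fun τ _ => ?_
    simp only [B34_apply, L4_single]
    ring
  rw [h1, h2]
  have h3 : ∀ τ : Equiv.Perm (Fin 6), ((Equiv.Perm.sign τ : ℤ) : ℝ) *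
      ∑ σ : Equiv.Perm (Fin 6), ((Equiv.Perm.sign σ : ℤ) : ℝ) *
        (B12 R (x (τ 0)) (x (τ 1)) (x (σ 0)) (x (σ 1)) *
          B12 R (x (τ 2)) (x (τ 3)) (x (σ 2)) (x (σ 3)) *
          B12 R (x (τ 4)) (x (τ 5)) (x (σ 4)) (x (σ 5))) =
      A.det * ∑ σ : Equiv.Perm (Fin 6), ((Equiv.Perm.sign τ : ℤ) : ℝ) *
        (((Equiv.Perm.sign σ : ℤ) : ℝ) *
        (B34 R (Pi.single (σ 0) 1) (Pi.single (σ 1) 1) (x (τ 0)) (x (τ 1)) *
          B34 R (Pi.single (σ 2) 1) (Pi.single (σ 3) 1) (x (τ 2)) (x (τ 3)) *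
          B34 R (Pi.single (σ 4) 1) (Pi.single (σ 5) 1) (x (τ 4)) (x (τ 5)))) := by
    intro τ
    rw [M6_alt, hdet, ← Finset.mul_sum]
    simp only [B12_apply, B34_apply]
    ring
  rw [Finset.sum_congr rfl fun τ _ => h3 τ, ← Finset.mul_sum, Finset.sum_comm]
  rw [sq, mul_assoc]
  congr 1
  rw [Finset.mul_sum]
  refine Finset.sum_congr rfl fun σ _ => ?_
  have h4 := M6_alt (B34 R (Pi.single (σ 0) 1) (Pi.single (σ 1) 1))
    (B34 R (Pi.single (σ 2) 1) (Pi.single (σ 3) 1)) (B34 R (Pi.single (σ 4) 1) (Pi.single (σ 5) 1)) x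
  rw [hdet] at h4
  calc ∑ τ : Equiv.Perm (Fin 6), ((Equiv.Perm.sign τ : ℤ) : ℝ) *
        (((Equiv.Perm.sign σ : ℤ) : ℝ) *
        (B34 R (Pi.single (σ 0) 1) (Pi.single (σ 1) 1) (x (τ 0)) (x (τ 1)) *
          B34 R (Pi.single (σ 2) 1) (Pi.single (σ 3) 1) (x (τ 2)) (x (τ 3)) *
          B34 R (Pi.single (σ 4) 1) (Pi.single (σ 5) 1) (x (τ 4)) (x (τ 5)))) =
      ((Equiv.Perm.sign σ : ℤ) : ℝ) * ∑ τ : Equiv.Perm (Fin 6), ((Equiv.Perm.sign τ : ℤ) : ℝ) *
        (B34 R (Pi.single (σ 0) 1) (Pi.single (σ 1) 1) (x (τ 0)) (x (τ 1)) *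
          B34 R (Pi.single (σ 2) 1) (Pi.single (σ 3) 1) (x (τ 2)) (x (τ 3)) *
          B34 R (Pi.single (σ 4) 1) (Pi.single (σ 5) 1) (x (τ 4)) (x (τ 5))) := by
        rw [Finset.mul_sum]
        exact Finset.sum_congr rfl fun τ _ => by ring
    _ = _ := by
        rw [h4]
        ring

end Pool.Agent.H38HP
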