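import Pool.Agent.H38HP.Tens

/-!
# Minimal scalar curvature among unimodular frames implies the Einstein condition
-/

set_option autoImplicit false

open scoped BigOperators
open Hopf6

namespace Pool.Agent.H38HP

theorem sc_act (A : Matrix (Fin 6) (Fin 6) ℝ) (T : Ten) :
    sc (act A T) = ∑ a, ∑ c, L4 T (fun i => A i a) (fun i => A i c) (fun i => A i a)
      (fun i => A i c) := rfl

section
variable {T : Ten} (hT : IsCurv T)
include hT

theorem T_ii (i c d : Fin 6) : T i i c d = 0 := by
  have := hT.anti i i c d
  linarith

theorem T_ii' (i c d : Fin 6) : T c d i i = 0 := by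
  rw [hT.pair i i c d, T_ii hT]

theorem Rc_sum (i j : Fin 6) : ∑ a, T a i a j = Rc T i j := by
  unfold Rc
  refine Finset.sum_congr rfl fun a _ => ?_
  rw [hT.anti i a a j, hT.pair a j i a, hT.anti j a i a, hT.pair i a j a]
  ring

theorem Rc_symm (i j : Fin 6) : Rc T i j = Rc T j i := by
  unfold Rc
  exact Finset.sum_congr rfl fun a _ => hT.pair j a i a

theorem expand_f (a c i : Fin 6) (s r : ℝ) :
    L4 T (ev a + s • ev i) (ev c + r • ev i) (ev a + s • ev i) (ev c + r • ev i) =
      T a c a c + s * (2 * T i c a c) + r * (2 * T a i a c) + s ^ 2 * T i c i c +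
        r ^ 2 * T a i a i + s * r * (2 * T i c a i) := by
  simp only [L4_add1, L4_add2, L4_add3, L4_add4, L4_smul1, L4_smul2, L4_smul3, L4_smul4, L4_ev,
    T_ii hT, T_ii' hT]
  have e1 : T a c i c = T i c a c := hT.pair i c a c
  have e2 : T a c a i = T a i a c := hT.pair a i a c
  have e3 : T a i i c = T i c a i := hT.pair i c a i
  rw [e1, e2, e3]
  ring

omit hT in
theorem trans_col (i j a : Fin 6) (t : ℝ) :
    (fun k => Matrix.transvection i j t k a) = ev a + (if a = j then t else 0) • ev i := by
  funext k
  simp only [Matrix.transvection, Matrix.add_apply, Pi.add_apply, Pi.smul_apply, smul_eq_mul,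
    Pi.single_apply, Matrix.one_apply, Matrix.single_apply]
  by_cases h1 : a = j
  · subst h1
    by_cases h2 : k = i
    · subst h2
      simp
    · simp [h2, Ne.symm h2]
  · simp [h1, Ne.symm h1]

theorem sc_trans (i j : Fin 6) (t : ℝ) : sc (act (Matrix.transvection i j t) T) =
    sc T + t * (4 * Rc T i j) + t ^ 2 * (2 * Rc T i i - 2 * T i j i j) := by
  rw [sc_act]
  simp only [trans_col, expand_f hT, Finset.sum_add_distrib]
  have e0 : ∑ a, ∑ c, T a c a c = sc T := rfl
  have e1 : ∑ a, ∑ c, (if a = j then t else 0) * (2 * T i c a c) = 2 * t * Rc T i j := by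
    rw [Finset.sum_eq_single j]
    · simp only [if_true, Rc, Finset.mul_sum]
      exact Finset.sum_congr rfl fun c _ => by ring
    · intro b _ hb
      simp [hb]
    · simp
  have e2 : ∑ a, ∑ c, (if c = j then t else 0) * (2 * T a i a c) = 2 * t * Rc T i j := by
    rw [Finset.sum_comm, Finset.sum_eq_single j]
    · rw [← Rc_sum hT, Finset.mul_sum]
      simp only [if_true]
      exact Finset.sum_congr rfl fun c _ => by ring
    · intro b _ hb
      simp [hb]
    · simp
  have e3 : ∑ a, ∑ c, (if a = j then t else 0) ^ 2 * T i c i c = t ^ 2 * Rc T i i := by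
    rw [Finset.sum_eq_single j]
    · simp only [if_true, Rc, Finset.mul_sum]
    · intro b _ hb
      simp [hb]
    · simp
  have e4 : ∑ a, ∑ c, (if c = j then t else 0) ^ 2 * T a i a i = t ^ 2 * Rc T i i := by
    rw [Finset.sum_comm, Finset.sum_eq_single j]
    · rw [← Rc_sum hT, Finset.mul_sum]
      simp only [if_true]
    · intro b _ hb
      simp [hb]
    · simp
  have e5 : ∑ a, ∑ c, (if a = j then t else 0) * (if c = j then t else 0) * (2 * T i c a i) =
      - (t ^ 2 * (2 * T i j i j)) := by
    rw [Finset.sum_eq_single j]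
    · rw [Finset.sum_eq_single j]
      · simp only [if_true]
        have : T i j j i = - T i j i j := by
          rw [hT.pair j i i j, hT.anti i j i j]
        rw [this]
        ring
      · intro b _ hb
        simp [hb]
      · simp
    · intro b _ hb
      simp [hb]
    · simp
  rw [e0, e1, e2, e3, e4, e5]
  ring

omit hT in
/-- squares of the entries of the diagonal matrix -/
theorem sc_diag (d : Fin 6 → ℝ) : sc (act (Matrix.diagonal d) T) =
    ∑ a, ∑ c, d a ^ 2 * d c ^ 2 * T a c a c := by
  rw [sc_act]
  have h : ∀ a : Fin 6, (fun k => Matrix.diagonal d k a) = d a • ev a := by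
    intro a
    funext k
    simp only [Matrix.diagonal_apply, Pi.smul_apply, smul_eq_mul, Pi.single_apply]
    by_cases h : k = a
    · subst h
      simp
    · simp [h]
  simp only [h, L4_smul1, L4_smul2, L4_smul3, L4_smul4, L4_ev]
  refine Finset.sum_congr rfl fun a _ => Finset.sum_congr rfl fun c _ => ?_
  ring

theorem sum_two (i j : Fin 6) (hij : i ≠ j) (p r : ℝ) :
    ∑ a, ∑ c, (1 + (if a = i then p else 0) + (if a = j then r else 0)) *
      (1 + (if c = i then p else 0) + (if c = j then r else 0)) * T a c a c =
      sc T + 2 * p * Rc T i i + 2 * r * Rc T j j + 2 * (p * r) * T i j i j := by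
  have e : ∀ a c : Fin 6, (1 + (if a = i then p else 0) + (if a = j then r else 0)) *
      (1 + (if c = i then p else 0) + (if c = j then r else 0)) * T a c a c =
      T a c a c + (if a = i then p * T a c a c else 0) + (if a = j then r * T a c a c else 0) +
      (if c = i then p * T a c a c else 0) + (if c = j then r * T a c a c else 0) +
      (if a = i then (if c = j then p * r * T a c a c else 0) else 0) +
      (if a = j then (if c = i then p * r * T a c a c else 0) else 0) := by
    intro a c
    by_cases h1 : a = i
    · subst h1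
      by_cases h2 : c = a
      · subst h2
        simp [hij, T_ii hT]
      · by_cases h3 : c = j
        · subst h3
          simp [hij, h2]
          ring
        · simp [hij, h2, h3]
          ring
    · by_cases h1' : a = j
      · subst h1'
        by_cases h2 : c = a
        · subst h2
          simp [hij.symm, T_ii hT]
        · by_cases h3 : c = i
          · subst h3
            simp [hij, h1]
            ring
          · simp [h1, h2, h3]
            ring
      · by_cases h2 : c = i
        · subst h2
          simp [h1, h1', hij]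
          ring
        · by_cases h3 : c = j
          · subst h3
            simp [h1, h1', h2]
            ring
          · simp [h1, h1', h2, h3]
  simp only [e, Finset.sum_add_distrib]
  have a1 : ∀ (i : Fin 6) (p : ℝ), ∑ a, ∑ c, (if a = i then p * T a c a c else 0) = p * Rc T i i := by
    intro i p
    rw [Finset.sum_eq_single i]
    · simp only [if_true, Rc, Finset.mul_sum]
    · intro b _ hb
      simp [hb]
    · simp
  have a2 : ∀ (i : Fin 6) (p : ℝ), ∑ a, ∑ c, (if c = i then p * T a c a c else 0) = p * Rc T i i := by
    intro i p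
    rw [Finset.sum_comm, Finset.sum_eq_single i]
    · rw [← Rc_sum hT, Finset.mul_sum]
      simp only [if_true]
    · intro b _ hb
      simp [hb]
    · simp
  have a3 : ∀ (i j : Fin 6) (p : ℝ), ∑ a, ∑ c,
      (if a = i then (if c = j then p * T a c a c else 0) else 0) = p * T i j i j := by
    intro i j p
    rw [Finset.sum_eq_single i]
    · rw [Finset.sum_eq_single j]
      · simp
      · intro b _ hb
        simp [hb]
      · simp
    · intro b _ hb
      simp [hb]
    · simp
  have e0 : ∑ a, ∑ c, T a c a c = sc T := rfl
  rw [e0, a1, a1, a2, a2, a3 i j, a3 j i]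
  have : T j i j i = T i j i j := by
    rw [hT.anti i j j i, hT.pair j i i j, hT.anti i j i j]
    ring
  rw [this]
  ring

variable (hmin : ∀ B : Matrix (Fin 6) (Fin 6) ℝ, B.det = 1 → sc T ≤ sc (act B T))
include hmin

theorem Rc_off {i j : Fin 6} (hij : i ≠ j) : Rc T i j = 0 := by
  have h : ∀ t : ℝ, 0 ≤ t * (4 * Rc T i j) + t ^ 2 * (2 * Rc T i i - 2 * T i j i j) := by
    intro t
    have h1 := hmin _ (Matrix.det_transvection_of_ne i j hij t)
    rw [sc_trans hT] at h1
    linarith
  set b := 4 * Rc T i j with hb
  set m := 2 * Rc T i i - 2 * T i j i j with hm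
  have hb0 : b = 0 := by
    by_contra hne
    have h1 := h (-b / (2 * (|m| + 1)))
    have h2 : m ≤ |m| := le_abs_self m
    have h3 : 0 < |m| + 1 := by positivity
    have h4 : 0 < b ^ 2 := by positivity
    have h5 : -b / (2 * (|m| + 1)) * b + (-b / (2 * (|m| + 1))) ^ 2 * m =
        b ^ 2 * (m - 2 * (|m| + 1)) / (4 * (|m| + 1) ^ 2) := by
      field_simp
      ring
    rw [h5] at h1
    have h6 : b ^ 2 * (m - 2 * (|m| + 1)) / (4 * (|m| + 1) ^ 2) < 0 := by
      apply div_neg_of_neg_of_pos
      · have : m - 2 * (|m| + 1) < 0 := by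
          have := abs_nonneg m
          linarith
        nlinarith
      · positivity
    linarith
  linarith

theorem Rc_le {i j : Fin 6} (hij : i ≠ j) : Rc T j j ≤ Rc T i i := by
  have h : ∀ v : ℝ, 1 < v → Rc T j j ≤ v * Rc T i i - (v - 1) * T i j i j := by
    intro v hv
    have hv0 : 0 < v := by linarith
    have hs := Real.sqrt_pos.2 hv0
    set d : Fin 6 → ℝ := fun a => if a = i then Real.sqrt v else if a = j then (Real.sqrt v)⁻¹ else 1
      with hd
    have hdet : (Matrix.diagonal d).det = 1 := by
      rw [Matrix.det_diagonal]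
      have h2 : ∏ a, d a = (∏ a, if a = i then Real.sqrt v else 1) *
          ∏ a, (if a = j then (Real.sqrt v)⁻¹ else 1) := by
        rw [← Finset.prod_mul_distrib]
        refine Finset.prod_congr rfl fun a _ => ?_
        simp only [hd]
        by_cases h1 : a = i
        · subst h1
          simp [hij]
        · simp [h1]
      rw [h2]
      simp only [Finset.prod_ite_eq', Finset.mem_univ, if_true]
      exact mul_inv_cancel₀ hs.ne'
    have h1 := hmin _ hdet
    rw [sc_diag] at h1
    have h3 : ∀ a, d a ^ 2 = 1 + (if a = i then v - 1 else 0) + (if a = j then v⁻¹ - 1 else 0) := by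
      intro a
      simp only [hd]
      by_cases k1 : a = i
      · subst k1
        simp [hij, Real.sq_sqrt hv0.le]
      · by_cases k2 : a = j
        · subst k2
          simp [k1, Real.sq_sqrt hv0.le]
        · simp [k1, k2]
    simp only [h3] at h1
    rw [sum_two hT i j hij] at h1
    have h4 : 0 ≤ (v - 1) * Rc T i i + (v⁻¹ - 1) * Rc T j j + (v - 1) * (v⁻¹ - 1) * T i j i j := by
      linarith
    have h5 : (v⁻¹ - 1) = - (v - 1) / v := by
      field_simp
      ring
    rw [h5] at h4
    have h6 : (v - 1) * Rc T i i + -(v - 1) / v * Rc T j j + (v - 1) * (-(v - 1) / v) * T i j i j =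
        (v - 1) / v * (v * Rc T i i - Rc T j j - (v - 1) * T i j i j) := by
      field_simp
      ring
    rw [h6] at h4
    have h7 : 0 < (v - 1) / v := div_pos (by linarith) hv0
    have h8 := nonneg_of_mul_nonneg_right h4 h7
    linarith
  refine le_of_forall_pos_le_add fun ε hε => ?_
  set m := Rc T i i - T i j i j with hm
  have h3 : 0 < |m| + 1 := by positivity
  have h1 := h (1 + ε / (|m| + 1)) (by
    have : 0 < ε / (|m| + 1) := by positivity
    linarith)
  have h2 : (1 + ε / (|m| + 1)) * Rc T i i - (1 + ε / (|m| + 1) - 1) * T i j i j =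
      Rc T i i + ε / (|m| + 1) * m := by
    rw [hm]
    ring
  rw [h2] at h1
  have h4 : ε / (|m| + 1) * m ≤ ε := by
    have h5 : m ≤ |m| + 1 := by
      have := le_abs_self m
      linarith
    calc ε / (|m| + 1) * m ≤ ε / (|m| + 1) * (|m| + 1) :=
          mul_le_mul_of_nonneg_left h5 (by positivity)
      _ = ε := by field_simp
  linarith

/-- **Einstein condition** -/
theorem Rc_min (i j : Fin 6) : Rc T i j = if i = j then sc T / 6 else 0 := by
  split_ifs with h
  · subst h
    have h1 : ∀ a, Rc T a a = Rc T i i := by
      intro a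
      by_cases ha : a = i
      · rw [ha]
      · exact le_antisymm (Rc_le hT hmin (Ne.symm ha)) (Rc_le hT hmin ha)
    have h2 : sc T = 6 * Rc T i i := by
      unfold sc
      rw [Finset.sum_congr rfl fun a _ => h1 a]
      simp
    rw [h2]
    ring
  · exact Rc_off hT hmin h

end

end Pool.Agent.H38HP
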