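import Pool.Agent.H38HP.Min
import Pool.Agent.H38HP.Ein
import Pool.Agent.W714.HE.Main

/-!
# Einstein tensors with Ptolemaic curvature: the upper bound, and the six-dimensional estimate
-/

set_option autoImplicit false

open scoped BigOperators
open Hopf6

namespace Pool.Agent.H38HP

/-- the algebraic core of the upper bound -/
theorem num4 (κ K u1 u2 u3 u4 v1 v2 v3 v4 k12 k13 k14 k23 k24 k34 : ℝ) (hK : 0 ≤ K)
    (hA : K + (u1 ^ 2 + u2 ^ 2 + u3 ^ 2 + u4 ^ 2) = 5 * κ)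
    (hB : K + (v1 ^ 2 + v2 ^ 2 + v3 ^ 2 + v4 ^ 2) = 5 * κ)
    (hS : k12 + k13 + k14 + k23 + k24 + k34 = 5 * κ + K)
    (h12 : 27 * (K * k12) ≤ 28 * (u1 * v2 + u2 * v1) ^ 2)
    (h13 : 27 * (K * k13) ≤ 28 * (u1 * v3 + u3 * v1) ^ 2)
    (h14 : 27 * (K * k14) ≤ 28 * (u1 * v4 + u4 * v1) ^ 2)
    (h23 : 27 * (K * k23) ≤ 28 * (u2 * v3 + u3 * v2) ^ 2)
    (h24 : 27 * (K * k24) ≤ 28 * (u2 * v4 + u4 * v2) ^ 2)
    (h34 : 27 * (K * k34) ≤ 28 * (u3 * v4 + u4 * v3) ^ 2) : K ≤ 2 * κ := by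
  have h1 : 27 * (K * (5 * κ + K)) ≤ 42 * (5 * κ - K) ^ 2 := by
    rw [← hS]
    have e : (5 * κ - K) ^ 2 = (u1 ^ 2 + u2 ^ 2 + u3 ^ 2 + u4 ^ 2) *
        (v1 ^ 2 + v2 ^ 2 + v3 ^ 2 + v4 ^ 2) := by
      rw [← hA] at *
      have : K + (u1 ^ 2 + u2 ^ 2 + u3 ^ 2 + u4 ^ 2) - K = v1 ^ 2 + v2 ^ 2 + v3 ^ 2 + v4 ^ 2 := by
        linarith
      rw [pow_two]
      conv_lhs => rw [this]
      have h2 : v1 ^ 2 + v2 ^ 2 + v3 ^ 2 + v4 ^ 2 = u1 ^ 2 + u2 ^ 2 + u3 ^ 2 + u4 ^ 2 := by linarith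
      rw [h2]
    rw [e]
    have e2 : 42 * ((u1 ^ 2 + u2 ^ 2 + u3 ^ 2 + u4 ^ 2) * (v1 ^ 2 + v2 ^ 2 + v3 ^ 2 + v4 ^ 2)) =
        28 * (u1 * v2 + u2 * v1) ^ 2 + 28 * (u1 * v3 + u3 * v1) ^ 2 + 28 * (u1 * v4 + u4 * v1) ^ 2 +
        28 * (u2 * v3 + u3 * v2) ^ 2 + 28 * (u2 * v4 + u4 * v2) ^ 2 + 28 * (u3 * v4 + u4 * v3) ^ 2 +
        14 * ((u1 * v2 - u2 * v1) ^ 2 + (u1 * v3 - u3 * v1) ^ 2 + (u1 * v4 - u4 * v1) ^ 2 +
          (u2 * v3 - u3 * v2) ^ 2 + (u2 * v4 - u4 * v2) ^ 2 + (u3 * v4 - u4 * v3) ^ 2) +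
        14 * ((u1 * v1 - u2 * v2) ^ 2 + (u1 * v1 - u3 * v3) ^ 2 + (u1 * v1 - u4 * v4) ^ 2 +
          (u2 * v2 - u3 * v3) ^ 2 + (u2 * v2 - u4 * v4) ^ 2 + (u3 * v3 - u4 * v4) ^ 2) := by ring
    have p1 : 0 ≤ (u1 * v2 - u2 * v1) ^ 2 + (u1 * v3 - u3 * v1) ^ 2 + (u1 * v4 - u4 * v1) ^ 2 +
          (u2 * v3 - u3 * v2) ^ 2 + (u2 * v4 - u4 * v2) ^ 2 + (u3 * v4 - u4 * v3) ^ 2 := by positivity
    have p2 : 0 ≤ (u1 * v1 - u2 * v2) ^ 2 + (u1 * v1 - u3 * v3) ^ 2 + (u1 * v1 - u4 * v4) ^ 2 +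
          (u2 * v2 - u3 * v3) ^ 2 + (u2 * v2 - u4 * v4) ^ 2 + (u3 * v3 - u4 * v4) ^ 2 := by positivity
    rw [e2]
    have e3 : 27 * (K * (k12 + k13 + k14 + k23 + k24 + k34)) = 27 * (K * k12) + 27 * (K * k13) +
      27 * (K * k14) + 27 * (K * k23) + 27 * (K * k24) + 27 * (K * k34) := by ring
    rw [e3]
    linarith
  by_contra hcon
  push Not at hcon
  have hK5 : K ≤ 5 * κ := by nlinarith [sq_nonneg u1, sq_nonneg u2, sq_nonneg u3, sq_nonneg u4]
  have hκ : 0 < κ := by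
    by_contra h
    push Not at h
    have : K ≤ 0 := by linarith
    linarith
  have h2 : 0 < (K - 2 * κ) * (35 * κ - K) := mul_pos (by linarith) (by linarith)
  nlinarith

/-- the bound for a symmetric table of sectional curvatures -/
theorem table {k : Fin 6 → Fin 6 → ℝ} {κ : ℝ} (hs : ∀ i j, k i j = k j i) (h0 : ∀ i, k i i = 0)
    (hk : ∀ i j, 0 ≤ k i j) (hr : ∀ i, ∑ j, k i j = 5 * κ)
    (hp : ∀ i j, 27 * (k 0 1 * k i j) ≤
      28 * (Real.sqrt (k 0 i * k 1 j) + Real.sqrt (k 0 j * k 1 i)) ^ 2) : k 0 1 ≤ 2 * κ := by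
  have hr' : ∀ i, k i 0 + k i 1 + k i 2 + k i 3 + k i 4 + k i 5 = 5 * κ := by
    intro i
    rw [← hr i]
    simp [Fin.sum_univ_succ]
    ring
  have r0 := hr' 0
  have r1 := hr' 1
  have r2 := hr' 2
  have r3 := hr' 3
  have r4 := hr' 4
  have r5 := hr' 5
  have sq : ∀ i j, Real.sqrt (k i j) ^ 2 = k i j := fun i j => Real.sq_sqrt (hk i j)
  have hp' : ∀ i j, 27 * (k 0 1 * k i j) ≤
      28 * (Real.sqrt (k 0 i) * Real.sqrt (k 1 j) + Real.sqrt (k 0 j) * Real.sqrt (k 1 i)) ^ 2 := by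
    intro i j
    have := hp i j
    rwa [Real.sqrt_mul (hk _ _), Real.sqrt_mul (hk _ _)] at this
  have s10 := hs 1 0
  have s20 := hs 2 0
  have s30 := hs 3 0
  have s40 := hs 4 0
  have s50 := hs 5 0
  have s21 := hs 2 1
  have s31 := hs 3 1
  have s41 := hs 4 1
  have s51 := hs 5 1
  have s32 := hs 3 2
  have s42 := hs 4 2
  have s52 := hs 5 2
  have s43 := hs 4 3
  have s53 := hs 5 3
  have s54 := hs 5 4
  have d0 := h0 0
  have d1 := h0 1
  have d2 := h0 2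
  have d3 := h0 3
  have d4 := h0 4
  have d5 := h0 5
  refine num4 κ (k 0 1) (Real.sqrt (k 0 2)) (Real.sqrt (k 0 3)) (Real.sqrt (k 0 4))
    (Real.sqrt (k 0 5)) (Real.sqrt (k 1 2)) (Real.sqrt (k 1 3)) (Real.sqrt (k 1 4))
    (Real.sqrt (k 1 5)) (k 2 3) (k 2 4) (k 2 5) (k 3 4) (k 3 5) (k 4 5) (hk 0 1) ?_ ?_ ?_
    (hp' 2 3) (hp' 2 4) (hp' 2 5) (hp' 3 4) (hp' 3 5) (hp' 4 5)
  · simp only [sq]
    linarith
  · simp only [sq]
    linarith
  · linarith

section
variable {T : Ten} (hT : IsCurv T)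
include hT

theorem qq_symm (x y : E6) : qq T x y = qq T y x := by
  unfold qq
  have h1 := L4_anti hT x y x y
  have h2 := L4_pair hT y x x y
  have h3 := L4_anti hT x y y x
  linarith

theorem qq_self (x : E6) : qq T x x = 0 := by
  unfold qq
  have := L4_anti hT x x x x
  linarith

omit hT in
/-- the trace in the second pair of arguments over the columns of an orthogonal matrix -/
theorem trace_cols {A : Matrix (Fin 6) (Fin 6) ℝ} (hA : A * A.transpose = 1) (u v : E6) :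
    ∑ c, L4 T u (fun i => A i c) v (fun i => A i c) = ∑ i, ∑ k, u i * v k * Rc T i k := by
  have h : ∀ j l, ∑ c, A j c * A l c = if j = l then 1 else 0 := by
    intro j l
    have := congrFun (congrFun hA j) l
    rw [Matrix.mul_apply] at this
    simp only [Matrix.transpose_apply] at this
    rw [this, Matrix.one_apply]
  calc ∑ c, L4 T u (fun i => A i c) v (fun i => A i c)
      = ∑ c, ∑ i, ∑ j, ∑ k, ∑ l, (A j c * A l c) * (u i * v k * T i j k l) := by
        unfold L4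
        refine Finset.sum_congr rfl fun c _ => Finset.sum_congr rfl fun i _ =>
          Finset.sum_congr rfl fun j _ => Finset.sum_congr rfl fun k _ =>
          Finset.sum_congr rfl fun l _ => ?_
        ring
    _ = ∑ i, ∑ j, ∑ k, ∑ l, (∑ c, A j c * A l c) * (u i * v k * T i j k l) := by
        rw [Finset.sum_comm]
        refine Finset.sum_congr rfl fun i _ => ?_
        rw [Finset.sum_comm]
        refine Finset.sum_congr rfl fun j _ => ?_
        rw [Finset.sum_comm]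
        refine Finset.sum_congr rfl fun k _ => ?_
        rw [Finset.sum_comm]
        refine Finset.sum_congr rfl fun l _ => ?_
        rw [Finset.sum_mul]
    _ = ∑ i, ∑ j, ∑ k, u i * v k * T i j k j := by
        refine Finset.sum_congr rfl fun i _ => Finset.sum_congr rfl fun j _ =>
          Finset.sum_congr rfl fun k _ => ?_
        simp [h]
    _ = ∑ i, ∑ k, u i * v k * Rc T i k := by
        refine Finset.sum_congr rfl fun i _ => ?_
        rw [Finset.sum_comm]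
        refine Finset.sum_congr rfl fun k _ => ?_
        unfold Rc
        rw [Finset.mul_sum]

/-- the bound of the sectional curvatures of an Einstein tensor -/
theorem sec_le {κ : ℝ} (hE : ∀ a b, Rc T a b = if a = b then 5 * κ else 0)
    (hq : ∀ x y, 0 ≤ qq T x y) (hp : PtolT T) {A : Matrix (Fin 6) (Fin 6) ℝ}
    (hA : A * A.transpose = 1) : qq T (fun i => A i 0) (fun i => A i 1) ≤ 2 * κ := by
  have hA' : A.transpose * A = 1 := mul_eq_one_comm.1 hA
  refine table (k := fun i j => qq T (fun a => A a i) (fun a => A a j)) (κ := κ)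
    (fun i j => qq_symm hT _ _) (fun i => qq_self hT _) (fun i j => hq _ _) ?_ ?_
  · intro i
    have h1 := trace_cols (T := T) hA (fun a => A a i) (fun a => A a i)
    have h2 : ∑ a, ∑ k, A a i * A k i * Rc T a k = 5 * κ := by
      simp only [hE, mul_ite, mul_zero, Finset.sum_ite_eq, Finset.mem_univ, if_true]
      rw [← Finset.sum_mul]
      have h3 := congrFun (congrFun hA' i) i
      rw [Matrix.mul_apply] at h3
      simp only [Matrix.transpose_apply, Matrix.one_apply, if_true] at h3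
      rw [h3]
      ring
    rw [← h2, ← h1]
    rfl
  · intro i j
    exact hp _ _ _ _

/-- every orthonormal pair is the beginning of an orthogonal matrix -/
theorem sec_le' {κ : ℝ} (hE : ∀ a b, Rc T a b = if a = b then 5 * κ else 0)
    (hq : ∀ x y, 0 ≤ qq T x y) (hp : PtolT T) (x y : E6) (hx : ∑ a, x a ^ 2 = 1)
    (hy : ∑ a, y a ^ 2 = 1) (hxy : ∑ a, x a * y a = 0) : qq T x y ≤ 2 * κ := by
  classical
  set X : EuclideanSpace ℝ (Fin 6) := WithLp.toLp 2 x with hX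
  set Y : EuclideanSpace ℝ (Fin 6) := WithLp.toLp 2 y with hY
  have iXX : inner ℝ X X = (1 : ℝ) := by
    rw [← hx, PiLp.inner_apply]
    simp [hX, pow_two]
  have iYY : inner ℝ Y Y = (1 : ℝ) := by
    rw [← hy, PiLp.inner_apply]
    simp [hY, pow_two]
  have iXY : inner ℝ X Y = (0 : ℝ) := by
    rw [← hxy, PiLp.inner_apply]
    simp [hX, hY, mul_comm]
  have iYX : inner ℝ Y X = (0 : ℝ) := by rw [real_inner_comm, iXY]
  let v : Fin 6 → EuclideanSpace ℝ (Fin 6) := fun i => if i = 0 then X else Y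
  have v0 : v 0 = X := by simp [v]
  have v1 : v 1 = Y := by simp [v]
  have hv : Orthonormal ℝ (({0, 1} : Set (Fin 6)).domRestrict v) := by
    rw [orthonormal_iff_ite]
    rintro ⟨i, hi⟩ ⟨j, hj⟩
    simp only [Set.mem_insert_iff, Set.mem_singleton_iff] at hi hj
    simp only [Set.domRestrict_apply, Subtype.mk.injEq]
    rcases hi with rfl | rfl <;> rcases hj with rfl | rfl
    · rw [v0, iXX, if_pos rfl]
    · rw [v0, v1, iXY, if_neg (by decide)]
    · rw [v0, v1, iYX, if_neg (by decide)]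
    · rw [v1, iYY, if_pos rfl]
  obtain ⟨b, hb⟩ := hv.exists_orthonormalBasis_extension_of_card_eq (by simp)
  have hb0 : b 0 = X := by
    rw [hb 0 (by simp)]
    simp [v]
  have hb1 : b 1 = Y := by
    rw [hb 1 (by simp)]
    simp [v]
  let A : Matrix (Fin 6) (Fin 6) ℝ := fun i c => b c i
  have hA : A.transpose * A = 1 := by
    ext c d
    rw [Matrix.mul_apply]
    have h1 := (orthonormal_iff_ite.1 b.orthonormal) c d
    rw [PiLp.inner_apply] at h1
    simp only [Matrix.transpose_apply, Matrix.one_apply]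
    rw [← h1]
    refine Finset.sum_congr rfl fun i _ => ?_
    simp [A, mul_comm]
  have hA' : A * A.transpose = 1 := mul_eq_one_comm.1 hA
  have h := sec_le hT hE hq hp hA'
  have e0 : (fun i => A i 0) = x := by
    funext i
    simp only [A, hb0]
    rfl
  have e1 : (fun i => A i 1) = y := by
    funext i
    simp only [A, hb1]
    rfl
  rwa [e0, e1] at h

end

end Pool.Agent.H38HP
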