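import Pool.Agent.H38HP.Tens

/-!
# The second elementary symmetric function of a unimodular Gram matrix
-/

set_option autoImplicit false

open scoped BigOperators
open Hopf6

namespace Pool.Agent.H38HP

theorem mac (l : Fin 6 → ℝ) (hl : ∀ i, 0 ≤ l i) (h1 : ∏ i, l i = 1) :
    30 ≤ (∑ i, l i) ^ 2 - ∑ i, l i ^ 2 := by
  set s : Finset (Fin 6 × Fin 6) := Finset.univ.filter fun p => p.1 ≠ p.2 with hs
  have hcard : s.card = 30 := by rw [hs]; decide
  have h := Real.geom_mean_le_arith_mean_weighted s (fun _ => (1 / 30 : ℝ))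
    (fun p => l p.1 * l p.2) (fun _ _ => by norm_num) (by
      rw [Finset.sum_const, hcard]
      norm_num) (fun p _ => mul_nonneg (hl _) (hl _))
  rw [Real.finsetProd_rpow _ _ (fun p _ => mul_nonneg (hl _) (hl _)), ← Finset.mul_sum] at h
  have hprod : ∏ p ∈ s, l p.1 * l p.2 = 1 := by
    have h2 : ∏ p ∈ s, l p.1 * l p.2 = (∏ i, l i) ^ 10 := by
      rw [hs, Finset.prod_filter, Fintype.prod_prod_type]
      simp only [Fin.prod_univ_six]
      simp
      ring
    rw [h2, h1, one_pow]
  have hsum : ∑ p ∈ s, l p.1 * l p.2 = (∑ i, l i) ^ 2 - ∑ i, l i ^ 2 := by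
    rw [hs, Finset.sum_filter, Fintype.sum_prod_type]
    simp only [Fin.sum_univ_six]
    simp
    ring
  rw [hprod, hsum, Real.one_rpow] at h
  linarith

/-- the sum of the squared areas spanned by the pairs of columns -/
theorem area_sum (A : Matrix (Fin 6) (Fin 6) ℝ) (hA : A.det = 1) :
    30 ≤ ∑ a, ∑ c, area2 (fun i => A i a) (fun i => A i c) := by
  set G : Matrix (Fin 6) (Fin 6) ℝ := A.transpose * A with hG
  have hGa : ∀ a c, G a c = ∑ i, A i a * A i c := by
    intro a c
    rw [hG, Matrix.mul_apply]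
    rfl
  have hpsd : G.PosSemidef := by
    have := Matrix.posSemidef_conjTranspose_mul_self A
    rwa [Matrix.conjTranspose_eq_transpose_of_trivial] at this
  have hH : G.IsHermitian := hpsd.isHermitian
  set l := hH.eigenvalues with hl
  have h0 : ∀ i, 0 ≤ l i := fun i => hpsd.eigenvalues_nonneg i
  have hdet : ∏ i, l i = 1 := by
    have h1 := hH.det_eq_prod_eigenvalues
    have h2 : G.det = 1 := by rw [hG, Matrix.det_mul, Matrix.det_transpose, hA, one_mul]
    rw [h2] at h1
    simpa using h1.symm
  have htr : G.trace = ∑ i, l i := by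
    have h1 := hH.trace_eq_sum_eigenvalues
    simpa using h1
  have htr2 : (G * G).trace = ∑ i, l i ^ 2 := by
    have hsp := hH.spectral_theorem
    rw [Unitary.conjStarAlgAut_apply] at hsp
    set U : Matrix (Fin 6) (Fin 6) ℝ := (hH.eigenvectorUnitary : Matrix (Fin 6) (Fin 6) ℝ) with hU
    have hUU : star U * U = 1 := Unitary.coe_star_mul_self hH.eigenvectorUnitary
    set D : Matrix (Fin 6) (Fin 6) ℝ := Matrix.diagonal (RCLike.ofReal ∘ hH.eigenvalues) with hD
    have hGG : G * G = U * (D * D) * star U := by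
      calc G * G = (U * D * star U) * (U * D * star U) := by rw [← hsp]
        _ = U * D * (star U * U) * D * star U := by simp only [mul_assoc]
        _ = U * (D * D) * star U := by rw [hUU, mul_one]; simp only [mul_assoc]
    rw [hGG, Matrix.trace_mul_cycle, hUU, one_mul, hD, Matrix.diagonal_mul_diagonal,
      Matrix.trace_diagonal]
    refine Finset.sum_congr rfl fun i _ => ?_
    simp [pow_two, hl]
  have hsum : ∑ a, ∑ c, area2 (fun i => A i a) (fun i => A i c) =
      G.trace ^ 2 - (G * G).trace := by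
    have e1 : G.trace ^ 2 = ∑ a, ∑ c, G a a * G c c := by
      rw [pow_two, Matrix.trace, Finset.sum_mul_sum]
      rfl
    have e2 : (G * G).trace = ∑ a, ∑ c, G a c * G a c := by
      rw [Matrix.trace]
      refine Finset.sum_congr rfl fun a _ => ?_
      rw [Matrix.diag_apply, Matrix.mul_apply]
      refine Finset.sum_congr rfl fun c _ => ?_
      rw [hGa c a, hGa a c]
      congr 1
      exact Finset.sum_congr rfl fun i _ => mul_comm _ _
    rw [e1, e2, ← Finset.sum_sub_distrib]
    refine Finset.sum_congr rfl fun a _ => ?_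
    rw [← Finset.sum_sub_distrib]
    refine Finset.sum_congr rfl fun c _ => ?_
    rw [hGa, hGa, hGa]
    unfold area2
    simp only [pow_two]
  rw [hsum, htr, htr2]
  exact mac l h0 hdet

end Pool.Agent.H38HP
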