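import Pool.Agent.H38HP.Tens

/-!
# A limit of unimodular changes of frame with minimal scalar curvature
-/

set_option autoImplicit false

open scoped BigOperators
open Hopf6

namespace Pool.Agent.H38HP

/-- Ptolemy's inequality with the factor `28 / 27` -/
def PtolT (T : Ten) : Prop :=
  ∀ x y z w : E6, 27 * (qq T x y * qq T z w) ≤
    28 * (Real.sqrt (qq T x z * qq T y w) + Real.sqrt (qq T x w * qq T y z)) ^ 2

theorem closed_curv : IsClosed {T : Ten | IsCurv T} := by
  have h : {T : Ten | IsCurv T} = {T | ∀ a b c d, T b a c d = - T a b c d} ∩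
      ({T | ∀ a b c d, T c d a b = T a b c d} ∩
        {T | ∀ a b c d, T a b c d + T b c a d + T c a b d = 0}) := by
    ext T
    exact ⟨fun h => ⟨h.anti, h.pair, h.bianchi⟩, fun h => ⟨h.1, h.2.1, h.2.2⟩⟩
  rw [h]
  refine IsClosed.inter ?_ (IsClosed.inter ?_ ?_)
  · simp only [Set.ofPred_forall]
    exact isClosed_iInter fun a => isClosed_iInter fun b => isClosed_iInter fun c =>
      isClosed_iInter fun d => isClosed_eq (cont_comp _ _ _ _) (cont_comp _ _ _ _).neg
  · simp only [Set.ofPred_forall]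
    exact isClosed_iInter fun a => isClosed_iInter fun b => isClosed_iInter fun c =>
      isClosed_iInter fun d => isClosed_eq (cont_comp _ _ _ _) (cont_comp _ _ _ _)
  · simp only [Set.ofPred_forall]
    exact isClosed_iInter fun a => isClosed_iInter fun b => isClosed_iInter fun c =>
      isClosed_iInter fun d => isClosed_eq
        (((cont_comp _ _ _ _).add (cont_comp _ _ _ _)).add (cont_comp _ _ _ _)) continuous_const

theorem closed_nonneg : IsClosed {T : Ten | ∀ x y, 0 ≤ qq T x y} := by
  simp only [Set.ofPred_forall]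
  exact isClosed_iInter fun x => isClosed_iInter fun y =>
    isClosed_le continuous_const (cont_qq x y)

theorem closed_ptol : IsClosed {T : Ten | PtolT T} := by
  unfold PtolT
  simp only [Set.ofPred_forall]
  refine isClosed_iInter fun x => isClosed_iInter fun y => isClosed_iInter fun z =>
    isClosed_iInter fun w => isClosed_le ?_ ?_
  · exact continuous_const.mul ((cont_qq _ _).mul (cont_qq _ _))
  · exact continuous_const.mul (((Real.continuous_sqrt.comp ((cont_qq _ _).mul (cont_qq _ _))).add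
      (Real.continuous_sqrt.comp ((cont_qq _ _).mul (cont_qq _ _)))).pow 2)

theorem ptol_act {R : Ten} (h : PtolT R) (A : Matrix (Fin 6) (Fin 6) ℝ) : PtolT (act A R) := by
  intro x y z w
  simp only [qq_act]
  exact h _ _ _ _

theorem exists_min {R : Ten} (hR : IsCurv R) (hq : ∀ x y, 0 ≤ qq R x y) (hp : PtolT R) :
    ∃ T : Ten, IsCurv T ∧ (∀ x y, 0 ≤ qq T x y) ∧ PtolT T ∧ gb T = gb R ∧
      (∀ B : Matrix (Fin 6) (Fin 6) ℝ, B.det = 1 → sc T ≤ sc (act B T)) ∧
      (∀ κ : ℝ, (∀ A : Matrix (Fin 6) (Fin 6) ℝ, A.det = 1 → κ ≤ sc (act A R)) → κ ≤ sc T) := by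
  set O : Set Ten := {T | ∃ A : Matrix (Fin 6) (Fin 6) ℝ, A.det = 1 ∧ act A R = T} with hO
  have hsub : ∀ C : Set Ten, IsClosed C → (∀ A : Matrix (Fin 6) (Fin 6) ℝ, A.det = 1 →
      act A R ∈ C) → closure O ⊆ C := by
    intro C hC h
    refine closure_minimal ?_ hC
    rintro _ ⟨A, hA, rfl⟩
    exact h A hA
  have s1 := hsub _ closed_curv fun A _ => act_curv A hR
  have s2 := hsub _ closed_nonneg fun A _ => by
    intro x y
    rw [qq_act]
    exact hq _ _
  have s3 := hsub _ closed_ptol fun A _ => ptol_act hp A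
  have s4 := hsub {T | gb T = gb R} (isClosed_eq cont_gb continuous_const) fun A hA => by
    show gb (act A R) = gb R
    rw [gb_act, hA]
    ring
  have hRO : R ∈ closure O := subset_closure ⟨1, Matrix.det_one, act_one R⟩
  set K : Set Ten := closure O ∩ {T | sc T ≤ sc R} with hK
  have hKcl : IsClosed K := isClosed_closure.inter (isClosed_le cont_sc continuous_const)
  have hs0 : 0 ≤ sc R := sc_nonneg hq
  have hKb : K ⊆ Metric.closedBall 0 (3 * sc R) := by
    rintro T ⟨hT, hTs⟩
    have hTs' : sc T ≤ sc R := hTs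
    rw [mem_closedBall_zero_iff]
    refine (pi_norm_le_iff_of_nonneg (by positivity)).2 fun a =>
      (pi_norm_le_iff_of_nonneg (by positivity)).2 fun b =>
      (pi_norm_le_iff_of_nonneg (by positivity)).2 fun c =>
      (pi_norm_le_iff_of_nonneg (by positivity)).2 fun d => ?_
    rw [Real.norm_eq_abs]
    exact (comp_le (s1 hT) (s2 hT) a b c d).trans (by linarith)
  have hKc : IsCompact K :=
    Metric.isCompact_of_isClosed_isBounded hKcl (Metric.isBounded_closedBall.subset hKb)
  obtain ⟨T, hTK, hmin⟩ := hKc.exists_isMinOn ⟨R, hRO, le_refl (sc R)⟩ cont_sc.continuousOn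
  have hminS : ∀ T' ∈ closure O, sc T ≤ sc T' := by
    intro T' hT'
    by_cases h : sc T' ≤ sc R
    · exact hmin ⟨hT', h⟩
    · have h1 : sc T ≤ sc R := hTK.2
      linarith
  refine ⟨T, s1 hTK.1, s2 hTK.1, s3 hTK.1, s4 hTK.1, ?_, ?_⟩
  · intro B hB
    refine hminS _ (map_mem_closure (cont_act B) hTK.1 ?_)
    rintro _ ⟨A, hA, rfl⟩
    exact ⟨A * B, by rw [Matrix.det_mul, hA, hB, one_mul], (act_act A B R).symm⟩
  · intro κ hκ
    exact hsub {T | κ ≤ sc T} (isClosed_le continuous_const cont_sc) hκ hTK.1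

end Pool.Agent.H38HP
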