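import Pool.Agent.H38HP.Six

/-!
# The curvature operator of the second kind and Ptolemy's inequality
-/

set_option autoImplicit false

open scoped BigOperators
open Hopf6

namespace Pool.Agent.H38HP

theorem real4_pos {X W a b c d α β γ δ : ℝ} (hX : 0 ≤ X) (hW : 0 ≤ W) (ha : 0 < a) (hb : 0 < b)
    (hc : 0 < c) (hd : 0 < d) (hα : 0 < α) (hβ : 0 < β) (hγ : 0 < γ) (hδ : 0 < δ)
    (H : ∀ p q r s : ℝ, 0 ≤ p → 0 ≤ q → 0 ≤ r → 0 ≤ s → p * α + q * β = r * γ + s * δ →
      p * q * X + r * s * W ≤ p * r * a + p * s * b + q * r * c + q * s * d) :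
    Real.sqrt (X * W) ≤ Real.sqrt (a * d) + Real.sqrt (b * c) := by
  obtain ⟨A, hA, rfl⟩ : ∃ A : ℝ, 0 < A ∧ a = A ^ 2 := ⟨√a, Real.sqrt_pos.2 ha, (Real.sq_sqrt ha.le).symm⟩
  obtain ⟨B, hB, rfl⟩ : ∃ A : ℝ, 0 < A ∧ b = A ^ 2 := ⟨√b, Real.sqrt_pos.2 hb, (Real.sq_sqrt hb.le).symm⟩
  obtain ⟨C, hC, rfl⟩ : ∃ A : ℝ, 0 < A ∧ c = A ^ 2 := ⟨√c, Real.sqrt_pos.2 hc, (Real.sq_sqrt hc.le).symm⟩
  obtain ⟨D, hD, rfl⟩ : ∃ A : ℝ, 0 < A ∧ d = A ^ 2 := ⟨√d, Real.sqrt_pos.2 hd, (Real.sq_sqrt hd.le).symm⟩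
  obtain ⟨P, hP, rfl⟩ : ∃ A : ℝ, 0 ≤ A ∧ X = A ^ 2 := ⟨√X, Real.sqrt_nonneg _, (Real.sq_sqrt hX).symm⟩
  obtain ⟨Q, hQ, rfl⟩ : ∃ A : ℝ, 0 ≤ A ∧ W = A ^ 2 := ⟨√W, Real.sqrt_nonneg _, (Real.sq_sqrt hW).symm⟩
  have e : ∀ {x y : ℝ}, 0 ≤ x → 0 ≤ y → Real.sqrt (x ^ 2 * y ^ 2) = x * y := by
    intro x y hx hy
    rw [← mul_pow]
    exact Real.sqrt_sq (mul_nonneg hx hy)
  rw [e hP hQ, e hA.le hD.le, e hB.le hC.le]
  set t : ℝ := B * D * γ + A * C * δ with ht
  set u : ℝ := C * D * α + A * B * β with hu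
  have ht0 : 0 < t := by positivity
  have hu0 : 0 < u := by positivity
  have h := H (t * (C * D)) (t * (A * B)) (u * (B * D)) (u * (A * C)) (by positivity)
    (by positivity) (by positivity) (by positivity) (by rw [ht, hu]; ring)
  have h1 : (A * B * C * D) * (t ^ 2 * P ^ 2 + u ^ 2 * Q ^ 2) ≤
      (A * B * C * D) * (2 * (t * u) * (A * D + B * C)) := by
    calc _ = t * (C * D) * (t * (A * B)) * P ^ 2 + u * (B * D) * (u * (A * C)) * Q ^ 2 := by ring
      _ ≤ _ := h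
      _ = _ := by ring
  have h2 := le_of_mul_le_mul_left h1 (by positivity)
  have h3 : 0 ≤ (t * P - u * Q) ^ 2 := sq_nonneg _
  have h4 : (2 * (t * u)) * (P * Q) ≤ (2 * (t * u)) * (A * D + B * C) := by nlinarith
  exact le_of_mul_le_mul_left h4 (by positivity)

open Filter Topology in
theorem real4 {X W a b c d α β γ δ : ℝ} (hX : 0 ≤ X) (hW : 0 ≤ W) (ha : 0 ≤ a) (hb : 0 ≤ b)
    (hc : 0 ≤ c) (hd : 0 ≤ d) (hα : 0 < α) (hβ : 0 < β) (hγ : 0 < γ) (hδ : 0 < δ)
    (H : ∀ p q r s : ℝ, 0 ≤ p → 0 ≤ q → 0 ≤ r → 0 ≤ s → p * α + q * β = r * γ + s * δ →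
      p * q * X + r * s * W ≤ p * r * a + p * s * b + q * r * c + q * s * d) :
    X * W ≤ (Real.sqrt (a * d) + Real.sqrt (b * c)) ^ 2 := by
  have h1 : Real.sqrt (X * W) ≤ Real.sqrt (a * d) + Real.sqrt (b * c) := by
    have hlim : Tendsto (fun ε : ℝ => Real.sqrt ((a + ε) * (d + ε)) + Real.sqrt ((b + ε) * (c + ε)))
        (𝓝[>] 0) (𝓝 (Real.sqrt (a * d) + Real.sqrt (b * c))) := by
      have hcont : Continuous fun ε : ℝ =>
          Real.sqrt ((a + ε) * (d + ε)) + Real.sqrt ((b + ε) * (c + ε)) := by fun_prop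
      have := hcont.tendsto 0
      simp only [add_zero] at this
      exact this.mono_left nhdsWithin_le_nhds
    refine ge_of_tendsto hlim ?_
    filter_upwards [self_mem_nhdsWithin] with ε hε
    have hε' : 0 < ε := hε
    refine real4_pos hX hW (by linarith) (by linarith) (by linarith) (by linarith) hα hβ hγ hδ ?_
    intro p q r s hp hq hr hs hpq
    have := H p q r s hp hq hr hs hpq
    have k1 := mul_nonneg (mul_nonneg hp hr) hε'.le
    have k2 := mul_nonneg (mul_nonneg hp hs) hε'.le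
    have k3 := mul_nonneg (mul_nonneg hq hr) hε'.le
    have k4 := mul_nonneg (mul_nonneg hq hs) hε'.le
    nlinarith
  calc X * W = Real.sqrt (X * W) ^ 2 := (Real.sq_sqrt (mul_nonneg hX hW)).symm
    _ ≤ _ := pow_le_pow_left₀ (Real.sqrt_nonneg _) h1 2

/-- The curvature operator of the second kind of `T` is nonnegative on the symmetric traceless
matrices. -/
def SK (T : Ten) : Prop :=
  ∀ h : Fin 6 → Fin 6 → ℝ, (∀ i j, h i j = h j i) → ∑ i, h i i = 0 →
    0 ≤ ∑ i, ∑ j, ∑ k, ∑ l, T i j k l * (h i l * h j k)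

section
variable {T : Ten} (hT : IsCurv T)
include hT

theorem sk_vec (hS : SK T) {ι : Type} [Fintype ι] (c : ι → ℝ) (X : ι → E6)
    (h0 : ∑ a, c a * ∑ i, X a i ^ 2 = 0) :
    ∑ a, ∑ b, c a * c b * qq T (X a) (X b) ≤ 0 := by
  have h := hS (fun i j => ∑ a, c a * (X a i * X a j)) (fun i j => by
    refine Finset.sum_congr rfl fun a _ => ?_
    ring) (by
    rw [Finset.sum_comm, ← h0]
    refine Finset.sum_congr rfl fun a _ => ?_
    rw [Finset.mul_sum]
    refine Finset.sum_congr rfl fun i _ => ?_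
    ring)
  have h1 : ∑ i, ∑ j, ∑ k, ∑ l, T i j k l *
      ((∑ a, c a * (X a i * X a l)) * (∑ a, c a * (X a j * X a k))) =
      ∑ a, ∑ b, c a * c b * L4 T (X a) (X b) (X b) (X a) := by
    have e1 : ∀ i j k l, T i j k l *
        ((∑ a, c a * (X a i * X a l)) * (∑ a, c a * (X a j * X a k))) =
        ∑ a, ∑ b, c a * c b * (X a i * X b j * X b k * X a l * T i j k l) := by
      intro i j k l
      rw [Finset.sum_mul_sum, Finset.mul_sum]
      refine Finset.sum_congr rfl fun a _ => ?_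
      rw [Finset.mul_sum]
      refine Finset.sum_congr rfl fun b _ => ?_
      ring
    simp only [e1]
    have sw : ∀ F : Fin 6 → ι → ℝ, ∑ i, ∑ a, F i a = ∑ a, ∑ i, F i a := fun F => Finset.sum_comm
    unfold L4
    simp only [Finset.mul_sum]
    calc ∑ i, ∑ j, ∑ k, ∑ l, ∑ a, ∑ b, c a * c b * (X a i * X b j * X b k * X a l * T i j k l)
        = ∑ i, ∑ j, ∑ k, ∑ a, ∑ b, ∑ l, c a * c b * (X a i * X b j * X b k * X a l * T i j k l) := by
          refine Finset.sum_congr rfl fun i _ => Finset.sum_congr rfl fun j _ =>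
            Finset.sum_congr rfl fun k _ => ?_
          rw [Finset.sum_comm]
          exact Finset.sum_congr rfl fun a _ => Finset.sum_comm
      _ = ∑ i, ∑ j, ∑ a, ∑ b, ∑ k, ∑ l, c a * c b * (X a i * X b j * X b k * X a l * T i j k l) := by
          refine Finset.sum_congr rfl fun i _ => Finset.sum_congr rfl fun j _ => ?_
          rw [Finset.sum_comm]
          exact Finset.sum_congr rfl fun a _ => Finset.sum_comm
      _ = ∑ i, ∑ a, ∑ b, ∑ j, ∑ k, ∑ l, c a * c b * (X a i * X b j * X b k * X a l * T i j k l) := by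
          refine Finset.sum_congr rfl fun i _ => ?_
          rw [Finset.sum_comm]
          exact Finset.sum_congr rfl fun a _ => Finset.sum_comm
      _ = _ := by
          rw [Finset.sum_comm]
          exact Finset.sum_congr rfl fun a _ => Finset.sum_comm
  rw [h1] at h
  have h2 : ∑ a, ∑ b, c a * c b * qq T (X a) (X b) =
      - ∑ a, ∑ b, c a * c b * L4 T (X a) (X b) (X b) (X a) := by
    rw [← Finset.sum_neg_distrib]
    refine Finset.sum_congr rfl fun a _ => ?_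
    rw [← Finset.sum_neg_distrib]
    refine Finset.sum_congr rfl fun b _ => ?_
    have h3 : L4 T (X a) (X b) (X b) (X a) = - qq T (X a) (X b) := by
      unfold qq
      rw [← L4_pair hT (X a) (X b) (X b) (X a), L4_anti hT (X a) (X b) (X a) (X b)]
    rw [h3]
    ring
  rw [h2]
  linarith

theorem qq_zero1 (y : E6) : qq T 0 y = 0 := by
  unfold qq
  have h1 := L4_smul1 T 0 0 y 0 y
  rw [zero_smul, zero_mul] at h1
  exact h1

theorem sq_pos {x : E6} (hx : x ≠ 0) : 0 < ∑ i, x i ^ 2 := by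
  have h0 : 0 ≤ ∑ i, x i ^ 2 := Finset.sum_nonneg fun _ _ => sq_nonneg _
  refine lt_of_le_of_ne h0 fun h => hx ?_
  funext a
  have h1 := (Finset.sum_eq_zero_iff_of_nonneg (fun a _ => sq_nonneg (x a))).1 h.symm a
    (Finset.mem_univ a)
  simpa using h1

theorem sk_nonneg (hS : SK T) (x y : E6) : 0 ≤ qq T x y := by
  by_cases hx : x = 0
  · rw [hx, qq_zero1 hT]
  by_cases hy : y = 0
  · rw [hy, qq_symm hT, qq_zero1 hT]
  have px := sq_pos hT hx
  have py := sq_pos hT hy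
  have h := sk_vec hT hS (ι := Fin 2) ![∑ i, y i ^ 2, -∑ i, x i ^ 2] ![x, y] (by
    rw [Fin.sum_univ_two]
    simp only [Matrix.cons_val_zero, Matrix.cons_val_one]
    ring)
  simp only [Fin.sum_univ_two, Matrix.cons_val_zero, Matrix.cons_val_one, qq_self hT,
    qq_symm hT y x] at h
  have h2 : (2 * ((∑ i, x i ^ 2) * ∑ i, y i ^ 2)) * (- qq T x y) ≤ 0 := by linarith
  have h3 : 0 < 2 * ((∑ i, x i ^ 2) * ∑ i, y i ^ 2) := by positivity
  have h4 := nonpos_of_mul_nonpos_right h2 h3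
  linarith

theorem sk_ptol (hS : SK T) (x y z w : E6) :
    qq T x y * qq T z w ≤
      (Real.sqrt (qq T x z * qq T y w) + Real.sqrt (qq T x w * qq T y z)) ^ 2 := by
  have hz0 : ∀ x y : E6, x = 0 ∨ y = 0 → qq T x y = 0 := by
    rintro x y (rfl | rfl)
    · exact qq_zero1 hT y
    · rw [qq_symm hT, qq_zero1 hT]
  by_cases hx : x = 0
  · rw [hz0 x y (Or.inl hx), zero_mul]
    positivity
  by_cases hy : y = 0
  · rw [hz0 x y (Or.inr hy), zero_mul]
    positivity
  by_cases hz : z = 0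
  · rw [hz0 z w (Or.inl hz), mul_zero]
    positivity
  by_cases hw : w = 0
  · rw [hz0 z w (Or.inr hw), mul_zero]
    positivity
  refine real4 (sk_nonneg hT hS _ _) (sk_nonneg hT hS _ _) (sk_nonneg hT hS _ _)
    (sk_nonneg hT hS _ _) (sk_nonneg hT hS _ _) (sk_nonneg hT hS _ _) (sq_pos hT hx)
    (sq_pos hT hy) (sq_pos hT hz) (sq_pos hT hw) ?_
  intro p q r s _ _ _ _ hpq
  have h := sk_vec hT hS (ι := Fin 4) ![p, q, -r, -s] ![x, y, z, w] (by
    rw [Fin.sum_univ_four]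
    simp only [Matrix.cons_val_zero, Matrix.cons_val_one, Matrix.cons_val]
    linarith)
  simp only [Fin.sum_univ_four, Matrix.cons_val_zero, Matrix.cons_val_one, Matrix.cons_val,
    qq_self hT, qq_symm hT y x, qq_symm hT z x, qq_symm hT w x, qq_symm hT z y, qq_symm hT w y,
    qq_symm hT w z] at h
  linarith

end

end Pool.Agent.H38HP
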