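import Pool.Agent.H38HP.Core

/-!
# The estimate of the Gauss-Bonnet-Chern integrand in components
-/

set_option autoImplicit false

open scoped BigOperators
open Hopf6 Pool.Agent.W714.HE

namespace Pool.Agent.H38HP

section
variable {T : Ten} (hT : IsCurv T)
include hT

theorem L4_xx (x z w : E6) : L4 T x x z w = 0 := by
  have := L4_anti hT x x z w
  linarith

theorem L4_xx' (x z w : E6) : L4 T z w x x = 0 := by
  rw [L4_pair hT x x z w, L4_xx hT]

/-- the upper bound for a unit vector and an arbitrary vector -/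
theorem quad_le {κ : ℝ} (hκ : 0 ≤ κ)
    (h : ∀ x y : E6, ∑ a, x a ^ 2 = 1 → ∑ a, y a ^ 2 = 1 → ∑ a, x a * y a = 0 →
      qq T x y ≤ 2 * κ) (x y : E6) (hx : ∑ a, x a ^ 2 = 1) : qq T x y ≤ 2 * κ * area2 x y := by
  obtain ⟨t, ht⟩ : ∃ t : ℝ, t = ∑ a, x a * y a := ⟨_, rfl⟩
  set w : E6 := y - t • x with hw
  have hy : y = w + t • x := by rw [hw]; abel
  have hxw : ∑ a, x a * w a = 0 := by
    have : ∑ a, x a * w a = ∑ a, x a * y a - t * ∑ a, x a ^ 2 := by
      rw [Finset.mul_sum, ← Finset.sum_sub_distrib]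
      refine Finset.sum_congr rfl fun a _ => ?_
      simp only [hw, Pi.sub_apply, Pi.smul_apply, smul_eq_mul]
      ring
    rw [this, hx, ← ht]
    ring
  have hww : ∑ a, w a ^ 2 = area2 x y := by
    have : ∑ a, w a ^ 2 = ∑ a, y a ^ 2 - (2 * t) * (∑ a, x a * y a) + t ^ 2 * ∑ a, x a ^ 2 := by
      rw [Finset.mul_sum, Finset.mul_sum, ← Finset.sum_sub_distrib, ← Finset.sum_add_distrib]
      refine Finset.sum_congr rfl fun a _ => ?_
      simp only [hw, Pi.sub_apply, Pi.smul_apply, smul_eq_mul]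
      ring
    rw [this, ← ht, hx]
    unfold area2
    rw [hx, ← ht]
    ring
  have hq : qq T x y = qq T x w := by
    unfold qq
    rw [hy]
    simp only [L4_add2, L4_add4, L4_smul2, L4_smul4, L4_xx hT, L4_xx' hT]
    ring
  rw [hq, ← hww]
  set n : ℝ := ∑ a, w a ^ 2 with hn
  have hn0 : 0 ≤ n := Finset.sum_nonneg fun a _ => sq_nonneg _
  rcases hn0.eq_or_lt with h0 | h0
  · have hw0 : w = 0 := by
      funext a
      have h1 := (Finset.sum_eq_zero_iff_of_nonneg (fun a _ => sq_nonneg (w a))).1 h0.symm a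
        (Finset.mem_univ a)
      simpa using h1
    rw [hw0, ← h0]
    have : qq T x 0 = 0 := by
      unfold qq
      have h1 := L4_smul2 T 0 x 0 x 0
      rw [zero_smul, zero_mul] at h1
      exact h1
    rw [this]
    simp
  · set s := Real.sqrt n with hs
    have hs2 : s ^ 2 = n := Real.sq_sqrt hn0
    have hs0 : 0 < s := Real.sqrt_pos.2 h0
    have h1 := h x (s⁻¹ • w) hx (by
      have : ∑ a, (s⁻¹ • w) a ^ 2 = s⁻¹ ^ 2 * n := by
        rw [hn, Finset.mul_sum]
        refine Finset.sum_congr rfl fun a _ => ?_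
        simp only [Pi.smul_apply, smul_eq_mul]
        ring
      rw [this, ← hs2]
      field_simp) (by
      have : ∑ a, x a * (s⁻¹ • w) a = s⁻¹ * ∑ a, x a * w a := by
        rw [Finset.mul_sum]
        refine Finset.sum_congr rfl fun a _ => ?_
        simp only [Pi.smul_apply, smul_eq_mul]
        ring
      rw [this, hxw, mul_zero])
    have h2 : qq T x (s⁻¹ • w) = s⁻¹ ^ 2 * qq T x w := by
      unfold qq
      rw [L4_smul2, L4_smul4]
      ring
    rw [h2] at h1
    have h3 : qq T x w = (s⁻¹ ^ 2 * qq T x w) * s ^ 2 := by field_simp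
    rw [h3, ← hs2]
    exact mul_le_mul_of_nonneg_right h1 (sq_nonneg s)

end

/-- **The estimate in components** (for the negative of the curvature tensor). -/
theorem core_six {R : Ten} (hR : IsCurv R) (hq : ∀ x y, 0 ≤ qq R x y) (hp : PtolT R) {κ0 : ℝ}
    (h0 : 0 ≤ κ0)
    (hκ : ∀ A : Matrix (Fin 6) (Fin 6) ℝ, A.det = 1 → 30 * κ0 ≤ sc (act A R)) :
    5760 / 50 * κ0 ^ 3 ≤ gb R := by
  obtain ⟨T, hT, hTq, hTp, hgb, hmin, hlow⟩ := exists_min hR hq hp
  have h1 : 30 * κ0 ≤ sc T := hlow _ hκ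
  rw [← hgb]
  set κ : ℝ := sc T / 30 with hκd
  have hle : κ0 ≤ κ := by rw [hκd]; linarith
  have hpow : κ0 ^ 3 ≤ κ ^ 3 := pow_le_pow_left₀ h0 hle 3
  suffices h : 5760 / 50 * κ ^ 3 ≤ gb T by linarith
  rcases (h0.trans hle).eq_or_lt with hz | hpos
  · have hsc : sc T = 0 := by
      have : sc T = 30 * κ := by rw [hκd]; ring
      rw [this, ← hz]
      ring
    have hT0 : T = 0 := by
      funext a b c d
      have := comp_le hT hTq a b c d
      rw [hsc, mul_zero] at this
      exact abs_nonpos_iff.1 this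
    rw [← hz, hT0]
    have : gb (0 : Ten) = 0 := by
      unfold gb
      simp
    rw [this]
    norm_num
  · have hE : ∀ a b, Rc T a b = if a = b then 5 * κ else 0 := by
      intro a b
      rw [Rc_min hT hmin a b]
      split_ifs
      · rw [hκd]; ring
      · rfl
    have hsec : ∀ x y : E6, ∑ a, x a ^ 2 = 1 → ∑ a, y a ^ 2 = 1 → ∑ a, x a * y a = 0 →
        qq T x y ≤ 2 * κ := fun x y hx hy hxy => sec_le' hT hE hTq hTp x y hx hy hxy
    have h2 := ein_core (scl_curv hT κ⁻¹) (by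
      intro a b
      have : Rc (scl κ⁻¹ T) a b = κ⁻¹ * Rc T a b := by
        unfold Rc scl
        rw [Finset.mul_sum]
      rw [this, hE a b]
      split_ifs
      · field_simp
      · simp) (by
      intro z hz y
      rw [quad_scl, quad_eq]
      refine ⟨mul_nonneg (inv_nonneg.2 hpos.le) (hTq _ _), ?_⟩
      have h3 := quad_le hT hpos.le hsec z y hz
      calc κ⁻¹ * qq T z y ≤ κ⁻¹ * (2 * κ * area2 z y) :=
            mul_le_mul_of_nonneg_left h3 (inv_nonneg.2 hpos.le)
        _ = 2 * area2 z y := by field_simp)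
    rw [gb_scl] at h2
    have hc3 : 0 < κ ^ 3 := by positivity
    calc 5760 / 50 * κ ^ 3 ≤ (κ⁻¹ ^ 3 * gb T) * κ ^ 3 := mul_le_mul_of_nonneg_right h2 hc3.le
      _ = gb T := by field_simp

end Pool.Agent.H38HP
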