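import Pool.Agent.H38HP.Act

/-!
# Curvature tensors in dimension six: frames, bounds, continuity
-/

set_option autoImplicit false

open scoped BigOperators
open Hopf6

namespace Pool.Agent.H38HP

section curv
variable {R : Ten}

theorem L4_anti (hR : IsCurv R) (u v w z : E6) : L4 R v u w z = - L4 R u v w z := by
  unfold L4
  rw [Finset.sum_comm, ← Finset.sum_neg_distrib]
  refine Finset.sum_congr rfl fun i _ => ?_
  rw [← Finset.sum_neg_distrib]
  refine Finset.sum_congr rfl fun j _ => ?_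
  rw [← Finset.sum_neg_distrib]
  refine Finset.sum_congr rfl fun k _ => ?_
  rw [← Finset.sum_neg_distrib]
  refine Finset.sum_congr rfl fun l _ => ?_
  rw [hR.anti i j k l]
  ring

theorem L4_pair (hR : IsCurv R) (u v w z : E6) : L4 R w z u v = L4 R u v w z := by
  unfold L4
  have h : ∀ F : Fin 6 → Fin 6 → Fin 6 → Fin 6 → ℝ,
      ∑ i, ∑ j, ∑ k, ∑ l, F i j k l = ∑ k, ∑ l, ∑ i, ∑ j, F i j k l := by
    intro F
    calc ∑ i, ∑ j, ∑ k, ∑ l, F i j k l = ∑ i, ∑ k, ∑ j, ∑ l, F i j k l :=
          Finset.sum_congr rfl fun i _ => Finset.sum_comm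
      _ = ∑ k, ∑ i, ∑ j, ∑ l, F i j k l := Finset.sum_comm
      _ = ∑ k, ∑ i, ∑ l, ∑ j, F i j k l :=
          Finset.sum_congr rfl fun k _ => Finset.sum_congr rfl fun i _ => Finset.sum_comm
      _ = ∑ k, ∑ l, ∑ i, ∑ j, F i j k l :=
          Finset.sum_congr rfl fun k _ => Finset.sum_comm
  rw [h]
  refine Finset.sum_congr rfl fun k _ => Finset.sum_congr rfl fun l _ =>
    Finset.sum_congr rfl fun i _ => Finset.sum_congr rfl fun j _ => ?_
  rw [hR.pair k l i j]
  ring

theorem L4_bianchi (hR : IsCurv R) (u v w z : E6) :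
    L4 R u v w z + L4 R v w u z + L4 R w u v z = 0 := by
  have h1 : L4 R v w u z = ∑ i, ∑ j, ∑ k, ∑ l, u i * v j * w k * z l * R j k i l := by
    unfold L4
    rw [show (∑ i, ∑ j, ∑ k, ∑ l, v i * w j * u k * z l * R i j k l) =
      ∑ i, ∑ k, ∑ j, ∑ l, v i * w j * u k * z l * R i j k l from
      Finset.sum_congr rfl fun i _ => Finset.sum_comm, Finset.sum_comm]
    refine Finset.sum_congr rfl fun i _ => Finset.sum_congr rfl fun j _ =>
      Finset.sum_congr rfl fun k _ => Finset.sum_congr rfl fun l _ => ?_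
    ring
  have h2 : L4 R w u v z = ∑ i, ∑ j, ∑ k, ∑ l, u i * v j * w k * z l * R k i j l := by
    unfold L4
    rw [Finset.sum_comm, show (∑ j, ∑ i, ∑ k, ∑ l, w i * u j * v k * z l * R i j k l) =
      ∑ j, ∑ k, ∑ i, ∑ l, w i * u j * v k * z l * R i j k l from
      Finset.sum_congr rfl fun i _ => Finset.sum_comm]
    refine Finset.sum_congr rfl fun i _ => Finset.sum_congr rfl fun j _ =>
      Finset.sum_congr rfl fun k _ => Finset.sum_congr rfl fun l _ => ?_
    ring
  rw [h1, h2]
  unfold L4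
  rw [← Finset.sum_add_distrib, ← Finset.sum_add_distrib]
  refine Finset.sum_eq_zero fun i _ => ?_
  rw [← Finset.sum_add_distrib, ← Finset.sum_add_distrib]
  refine Finset.sum_eq_zero fun j _ => ?_
  rw [← Finset.sum_add_distrib, ← Finset.sum_add_distrib]
  refine Finset.sum_eq_zero fun k _ => ?_
  rw [← Finset.sum_add_distrib, ← Finset.sum_add_distrib]
  refine Finset.sum_eq_zero fun l _ => ?_
  linear_combination (u i * v j * w k * z l) * hR.bianchi i j k l

end curv

/-- the sectional curvature, not normalised -/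
noncomputable def qq (R : Ten) (x y : E6) : ℝ := L4 R x y x y

theorem quad_eq (R : Ten) (x y : E6) : quad R x y = qq R x y := by
  unfold quad qq L4
  refine Finset.sum_congr rfl fun i _ => Finset.sum_congr rfl fun j _ =>
    Finset.sum_congr rfl fun k _ => Finset.sum_congr rfl fun l _ => ?_
  ring

/-- the standard basis vector -/
noncomputable abbrev ev (a : Fin 6) : E6 := Pi.single a 1

theorem L4_ev (R : Ten) (a b c d : Fin 6) : L4 R (ev a) (ev b) (ev c) (ev d) = R a b c d :=
  L4_single R a b c d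

theorem sc_eq (R : Ten) : sc R = ∑ a, ∑ c, qq R (ev a) (ev c) := by
  unfold sc Rc qq
  refine Finset.sum_congr rfl fun a _ => Finset.sum_congr rfl fun c _ => ?_
  rw [L4_ev]

theorem L4_sum1 {ι : Type*} (s : Finset ι) (R : Ten) (t : ι → ℝ) (f : ι → E6) (v w z : E6) :
    L4 R (∑ a ∈ s, t a • f a) v w z = ∑ a ∈ s, t a * L4 R (f a) v w z := by
  have h := congrArg (fun g => g v) (map_sum (B12 R w z) (fun a => t a • f a) s)
  simp only [LinearMap.sum_apply, map_smul, LinearMap.smul_apply, B12_apply, smul_eq_mul] at h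
  exact h

theorem L4_sum2 {ι : Type*} (s : Finset ι) (R : Ten) (t : ι → ℝ) (f : ι → E6) (u w z : E6) :
    L4 R u (∑ a ∈ s, t a • f a) w z = ∑ a ∈ s, t a * L4 R u (f a) w z := by
  have h := map_sum (B12 R w z u) (fun a => t a • f a) s
  simp only [map_smul, B12_apply, smul_eq_mul] at h
  exact h

theorem L4_sum3 {ι : Type*} (s : Finset ι) (R : Ten) (t : ι → ℝ) (f : ι → E6) (u v z : E6) :
    L4 R u v (∑ a ∈ s, t a • f a) z = ∑ a ∈ s, t a * L4 R u v (f a) z := by
  have h := congrArg (fun g => g z) (map_sum (B34 R u v) (fun a => t a • f a) s)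
  simp only [LinearMap.sum_apply, map_smul, LinearMap.smul_apply, B34_apply, smul_eq_mul] at h
  exact h

theorem L4_sum4 {ι : Type*} (s : Finset ι) (R : Ten) (t : ι → ℝ) (f : ι → E6) (u v w : E6) :
    L4 R u v w (∑ a ∈ s, t a • f a) = ∑ a ∈ s, t a * L4 R u v w (f a) := by
  have h := map_sum (B34 R u v w) (fun a => t a • f a) s
  simp only [map_smul, B34_apply, smul_eq_mul] at h
  exact h

theorem mulVec_eq (A : Matrix (Fin 6) (Fin 6) ℝ) (u : E6) :
    A.mulVec u = ∑ a, u a • (fun i => A i a) := by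
  funext i
  simp only [Matrix.mulVec, dotProduct, Finset.sum_apply, Pi.smul_apply, smul_eq_mul]
  exact Finset.sum_congr rfl fun a _ => mul_comm _ _

theorem L4_act (A : Matrix (Fin 6) (Fin 6) ℝ) (R : Ten) (u v w z : E6) :
    L4 (act A R) u v w z = L4 R (A.mulVec u) (A.mulVec v) (A.mulVec w) (A.mulVec z) := by
  rw [mulVec_eq A u, L4_sum1]
  conv_lhs => unfold L4
  refine Finset.sum_congr rfl fun i _ => ?_
  rw [mulVec_eq A v, L4_sum2, Finset.mul_sum]
  refine Finset.sum_congr rfl fun j _ => ?_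
  rw [mulVec_eq A w, L4_sum3, Finset.mul_sum, Finset.mul_sum]
  refine Finset.sum_congr rfl fun k _ => ?_
  rw [mulVec_eq A z, L4_sum4, Finset.mul_sum, Finset.mul_sum, Finset.mul_sum]
  refine Finset.sum_congr rfl fun l _ => ?_
  unfold act
  ring

theorem qq_act (A : Matrix (Fin 6) (Fin 6) ℝ) (R : Ten) (x y : E6) :
    qq (act A R) x y = qq R (A.mulVec x) (A.mulVec y) := L4_act A R x y x y

theorem act_act (A B : Matrix (Fin 6) (Fin 6) ℝ) (R : Ten) :
    act B (act A R) = act (A * B) R := by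
  funext a b c d
  have h : ∀ a, A.mulVec (fun i => B i a) = fun i => (A * B) i a := by
    intro a
    funext i
    rfl
  show L4 (act A R) _ _ _ _ = L4 R _ _ _ _
  rw [L4_act, h, h, h, h]

theorem act_one (R : Ten) : act 1 R = R := by
  funext a b c d
  have h : ∀ a : Fin 6, (fun i => (1 : Matrix (Fin 6) (Fin 6) ℝ) i a) = ev a := by
    intro a
    funext i
    by_cases h : i = a
    · subst h
      simp
    · simp [Matrix.one_apply_ne h, h]
  show L4 R _ _ _ _ = _
  rw [h, h, h, h, L4_ev]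

theorem act_curv (A : Matrix (Fin 6) (Fin 6) ℝ) {R : Ten} (hR : IsCurv R) : IsCurv (act A R) :=
  ⟨fun _ _ _ _ => L4_anti hR _ _ _ _, fun _ _ _ _ => L4_pair hR _ _ _ _,
    fun _ _ _ _ => L4_bianchi hR _ _ _ _⟩

/-! ### the bound of the components -/

section bound
variable {R : Ten}

theorem qq_neg1 (x y : E6) : qq R (-x) y = qq R x y := by
  unfold qq
  have h : (-x) = (-1 : ℝ) • x := by simp
  rw [h, L4_smul1, L4_smul3]
  ring

theorem qq_par1 (x x' y : E6) : qq R (x + x') y + qq R (x - x') y = 2 * qq R x y + 2 * qq R x' y := by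
  unfold qq
  have h : x - x' = x + (-1 : ℝ) • x' := by simp [sub_eq_add_neg]
  rw [h]
  simp only [L4_add1, L4_add3, L4_smul1, L4_smul3]
  ring

theorem qq_par2 (x y y' : E6) : qq R x (y + y') + qq R x (y - y') = 2 * qq R x y + 2 * qq R x y' := by
  unfold qq
  have h : y - y' = y + (-1 : ℝ) • y' := by simp [sub_eq_add_neg]
  rw [h]
  simp only [L4_add2, L4_add4, L4_smul2, L4_smul4]
  ring

variable (hR : IsCurv R) (hq : ∀ x y, 0 ≤ qq R x y)
include hq

theorem K_le (a b : Fin 6) : qq R (ev a) (ev b) ≤ sc R := by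
  rw [sc_eq]
  have h1 : qq R (ev a) (ev b) ≤ ∑ c, qq R (ev a) (ev c) :=
    Finset.single_le_sum (f := fun c => qq R (ev a) (ev c)) (fun c _ => hq _ _)
      (Finset.mem_univ b)
  have h2 : ∑ c, qq R (ev a) (ev c) ≤ ∑ a, ∑ c, qq R (ev a) (ev c) :=
    Finset.single_le_sum (f := fun a => ∑ c, qq R (ev a) (ev c))
      (fun a _ => Finset.sum_nonneg fun c _ => hq _ _) (Finset.mem_univ a)
  exact h1.trans h2

theorem sc_nonneg : 0 ≤ sc R := (hq (ev 0) (ev 0)).trans (K_le hq 0 0)

theorem q_pm {x x' y y' : E6} {s : ℝ} (h1 : qq R x y ≤ s) (h2 : qq R x y' ≤ s)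
    (h3 : qq R x' y ≤ s) (h4 : qq R x' y' ≤ s) :
    (qq R (x + x') (y + y') ≤ 16 * s ∧ qq R (x - x') (y + y') ≤ 16 * s) ∧
      (qq R (x + x') (y - y') ≤ 16 * s ∧ qq R (x - x') (y - y') ≤ 16 * s) := by
  have a1 := qq_par1 (R := R) x x' (y + y')
  have a2 := qq_par1 (R := R) x x' (y - y')
  have a3 := qq_par2 (R := R) x y y'
  have a4 := qq_par2 (R := R) x' y y'
  have b1 := hq (x + x') (y + y')
  have b2 := hq (x - x') (y + y')
  have b3 := hq (x + x') (y - y')
  have b4 := hq (x - x') (y - y')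
  have b5 := hq x (y + y')
  have b6 := hq x (y - y')
  have b7 := hq x' (y + y')
  have b8 := hq x' (y - y')
  refine ⟨⟨by linarith, by linarith⟩, ⟨by linarith, by linarith⟩⟩

omit hq in
include hR in
theorem pol8 (x y z w : E6) : 8 * (L4 R x y z w + L4 R x w z y) =
    qq R (x + z) (y + w) - qq R (x - z) (y + w) - qq R (x + z) (y - w) + qq R (x - z) (y - w) := by
  unfold qq
  have h : x - z = x + (-1 : ℝ) • z := by simp [sub_eq_add_neg]
  have h' : y - w = y + (-1 : ℝ) • w := by simp [sub_eq_add_neg]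
  rw [h, h']
  simp only [L4_add1, L4_add2, L4_add3, L4_add4, L4_smul1, L4_smul2, L4_smul3, L4_smul4]
  have e1 := L4_pair hR x y z w
  have e2 := L4_pair hR x w z y
  rw [e1, e2]
  ring

include hR in
theorem comp_le (a b c d : Fin 6) : |R a b c d| ≤ 3 * sc R := by
  have key : ∀ a b c d : Fin 6, |R a b c d + R a d c b| ≤ 4 * sc R := by
    intro a b c d
    have h := pol8 hR (ev a) (ev b) (ev c) (ev d)
    rw [L4_ev, L4_ev] at h
    obtain ⟨⟨h1, h2⟩, h3, h4⟩ := q_pm hq (K_le hq a b) (K_le hq a d) (K_le hq c b) (K_le hq c d)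
    have b1 := hq (ev a + ev c) (ev b + ev d)
    have b2 := hq (ev a - ev c) (ev b + ev d)
    have b3 := hq (ev a + ev c) (ev b - ev d)
    have b4 := hq (ev a - ev c) (ev b - ev d)
    rw [abs_le]
    constructor <;> linarith
  -- α = R a b c d, β = R b c a d, γ = R c a b d
  have k1 := abs_le.1 (key a b c d)
  have k3 := abs_le.1 (key c a b d)
  have hb := hR.bianchi a b c d
  -- R a d c b = - R b c a d
  have e1 : R a d c b = - R b c a d := by
    rw [hR.pair c b a d, hR.anti b c a d]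
  -- R c d b a = - R a b c d
  have e3 : R c d b a = - R a b c d := by
    rw [hR.pair b a c d, hR.anti a b c d]
  rw [e1] at k1
  rw [e3] at k3
  have hs := sc_nonneg hq
  rw [abs_le]
  constructor <;> linarith [k1.1, k1.2, k3.1, k3.2]

end bound

/-! ### continuity -/

theorem cont_comp (a b c d : Fin 6) : Continuous fun R : Ten => R a b c d := by
  fun_prop

theorem cont_L4 (u v w z : E6) : Continuous fun R : Ten => L4 R u v w z := by
  unfold L4
  fun_prop

theorem cont_qq (x y : E6) : Continuous fun R : Ten => qq R x y := cont_L4 x y x y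

theorem cont_sc : Continuous fun R : Ten => sc R := by
  unfold sc Rc
  fun_prop

theorem cont_gb : Continuous fun R : Ten => gb R := by
  unfold gb
  fun_prop

theorem cont_act (A : Matrix (Fin 6) (Fin 6) ℝ) : Continuous fun R : Ten => act A R := by
  refine continuous_pi fun a => continuous_pi fun b => continuous_pi fun c =>
    continuous_pi fun d => ?_
  exact cont_L4 _ _ _ _

end Pool.Agent.H38HP
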