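import Pool.Agent.H38HP.Second
import Pool.Agent.H38HP.Mac

/-!
# The estimate for curvature tensors on a Euclidean vector space
-/

set_option autoImplicit false

open scoped BigOperators
open Hopf6 Pool.Agent.W714.HE

namespace Pool.Agent.H38HP

section
variable {V : Type*} [NormedAddCommGroup V] [InnerProductSpace ℝ V]

/-- all sectional curvatures are at most `-κ` -/
def SecLE (R : V → V → V → V → ℝ) (κ : ℝ) : Prop :=
  ∀ x y : V, ‖x‖ = 1 → ‖y‖ = 1 → inner ℝ x y = 0 → R x y x y ≤ -κ

/-- Ptolemy's inequality with the factor `28 / 27`, for the square root of `R(x, y, x, y)` in the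
place of the distance of `x` and `y` -/
def Ptolemaic (R : V → V → V → V → ℝ) : Prop :=
  ∀ x y z w : V, 27 * (R x y x y * R z w z w) ≤
    28 * (Real.sqrt (R x z x z * R y w y w) + Real.sqrt (R x w x w * R y z y z)) ^ 2

/-- The curvature operator of the second kind is nonpositive on the symmetric traceless tensors. -/
def SecondKindNonpos (e : OrthonormalBasis (Fin 6) ℝ V) (R : V → V → V → V → ℝ) : Prop :=
  ∀ h : Fin 6 → Fin 6 → ℝ, (∀ i j, h i j = h j i) → ∑ i, h i i = 0 →
    ∑ i, ∑ j, ∑ k, ∑ l, R (e i) (e j) (e k) (e l) * (h i l * h j k) ≤ 0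

/-- In every unimodular frame the sum of the unnormalised sectional curvatures is at most
`-30 κ`: the scalar curvature of `R` for every inner product with the given volume. -/
def UnimodularLE (e : OrthonormalBasis (Fin 6) ℝ V) (R : V → V → V → V → ℝ) (κ : ℝ) : Prop :=
  ∀ u : Fin 6 → V, e.toBasis.det u = 1 → ∑ i, ∑ j, R (u i) (u j) (u i) (u j) ≤ -(30 * κ)

variable (e : OrthonormalBasis (Fin 6) ℝ V) {R : V → V → V → V → ℝ}

/-- components of the negative -/
noncomputable def ng (R : V → V → V → V → ℝ) : Ten := tn e (fun x y z w => - R x y z w)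

theorem qq_ng (hR : AlgCurv R) (x y : E6) :
    qq (ng e R) x y = - R (vc e x) (vc e y) (vc e x) (vc e y) := by
  rw [← quad_eq]
  exact quad_tn e (neg_curv hR) x y

omit e in
theorem sec_unit (hR : AlgCurv R) {κ : ℝ} (h : SecLE R κ) (x y : V) (hx : ‖x‖ = 1) :
    κ * (‖y‖ ^ 2 - inner ℝ x y ^ 2) ≤ - R x y x y := by
  set t : ℝ := inner ℝ x y with ht
  set z : V := y - t • x with hz
  have hxx : inner ℝ x x = (1 : ℝ) := by rw [real_inner_self_eq_norm_sq, hx]; norm_num
  have hxz : inner ℝ x z = 0 := by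
    rw [hz, inner_sub_right, inner_smul_right, hxx, ← ht]
    ring
  have hnz : ‖z‖ ^ 2 = ‖y‖ ^ 2 - t ^ 2 := by
    rw [hz, norm_sub_sq_real, inner_smul_right, real_inner_comm, ← ht, norm_smul, hx]
    rw [mul_one, Real.norm_eq_abs, sq_abs]
    ring
  have hy : y = z + t • x := by rw [hz]; abel
  have a2 : ∀ u v v' u' w, R u (v + v') u' w = R u v u' w + R u v' u' w := by
    intro u v v' u' w
    rw [hR.anti (v + v') u u' w, hR.add, hR.anti v u u' w, hR.anti v' u u' w]
    ring
  have m2 : ∀ (t : ℝ) u v u' w, R u (t • v) u' w = t * R u v u' w := by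
    intro t u v u' w
    rw [hR.anti (t • v) u u' w, hR.smul, hR.anti v u u' w]
    ring
  have a4 : ∀ u v u' w w', R u v u' (w + w') = R u v u' w + R u v u' w' := by
    intro u v u' w w'
    rw [hR.pair u' (w + w') u v, a2, hR.pair u' w u v, hR.pair u' w' u v]
  have m4 : ∀ (t : ℝ) u v u' w, R u v u' (t • w) = t * R u v u' w := by
    intro t u v u' w
    rw [hR.pair u' (t • w) u v, m2, hR.pair u' w u v]
  have hRz : R x y x y = R x z x z := by
    rw [hy]
    simp only [a2, m2, a4, m4, R_xx hR, R_xx' hR]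
    ring
  rw [hRz, ← hnz]
  rcases eq_or_ne z 0 with h0 | h0
  · rw [h0]
    have h00 : R x 0 x 0 = 0 := by
      have := m4 0 x 0 x 0
      rw [zero_smul, zero_mul] at this
      exact this
    rw [h00]
    simp
  · have hn : ‖z‖ ≠ 0 := norm_ne_zero_iff.2 h0
    have h1 := h x (‖z‖⁻¹ • z) hx (by rw [norm_smul, norm_inv, norm_norm, inv_mul_cancel₀ hn])
      (by rw [inner_smul_right, hxz, mul_zero])
    simp only [m2, m4] at h1
    have hp : 0 < ‖z‖ ^ 2 := by positivity
    have e1 : - R x z x z = -(‖z‖⁻¹ * (‖z‖⁻¹ * R x z x z)) * ‖z‖ ^ 2 := by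
      field_simp
    rw [e1]
    exact mul_le_mul_of_nonneg_right (by linarith) hp.le

omit e in
theorem sec_all (hR : AlgCurv R) {κ : ℝ} (h : SecLE R κ) (x y : V) :
    κ * (‖x‖ ^ 2 * ‖y‖ ^ 2 - inner ℝ x y ^ 2) ≤ - R x y x y := by
  by_cases hx : x = 0
  · have h0 : R x y x y = 0 := by
      have := hR.smul 0 x y x y
      rw [zero_smul, zero_mul] at this
      rw [hx] at this ⊢
      exact this
    rw [h0, hx]
    simp
  · have hn : ‖x‖ ≠ 0 := norm_ne_zero_iff.2 hx
    have h2 := sec_unit hR h (‖x‖⁻¹ • x) y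
      (by rw [norm_smul, norm_inv, norm_norm, inv_mul_cancel₀ hn])
    have h3 : R (‖x‖⁻¹ • x) y (‖x‖⁻¹ • x) y = ‖x‖⁻¹ ^ 2 * R x y x y := by
      rw [hR.smul, hR.pair (‖x‖⁻¹ • x) y x y, hR.smul]
      ring
    rw [h3, inner_smul_left] at h2
    simp only [conj_trivial] at h2
    have h4 := mul_le_mul_of_nonneg_right h2 (sq_nonneg ‖x‖)
    calc κ * (‖x‖ ^ 2 * ‖y‖ ^ 2 - inner ℝ x y ^ 2)
        = κ * (‖y‖ ^ 2 - (‖x‖⁻¹ * inner ℝ x y) ^ 2) * ‖x‖ ^ 2 := by field_simp
      _ ≤ _ := h4
      _ = - R x y x y := by field_simp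

theorem qq_ng_ge (hR : AlgCurv R) {κ : ℝ} (h : SecLE R κ) (x y : E6) :
    κ * area2 x y ≤ qq (ng e R) x y := by
  rw [qq_ng e hR]
  have h1 := sec_all hR h (vc e x) (vc e y)
  rw [vc_norm, vc_norm, vc_inner] at h1
  exact h1

theorem ptol_ng (hR : AlgCurv R) (h : Ptolemaic R) : PtolT (ng e R) := by
  intro x y z w
  simp only [qq_ng e hR]
  have h1 := h (vc e x) (vc e y) (vc e z) (vc e w)
  simpa only [neg_mul_neg] using h1

theorem sc_ng (hR : AlgCurv R) (A : Matrix (Fin 6) (Fin 6) ℝ) :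
    sc (act A (ng e R)) = - ∑ i, ∑ j, R (vc e fun a => A a i) (vc e fun a => A a j)
      (vc e fun a => A a i) (vc e fun a => A a j) := by
  rw [sc_act, ← Finset.sum_neg_distrib]
  refine Finset.sum_congr rfl fun i _ => ?_
  rw [← Finset.sum_neg_distrib]
  refine Finset.sum_congr rfl fun j _ => ?_
  exact qq_ng e hR _ _

theorem det_vc (A : Matrix (Fin 6) (Fin 6) ℝ) :
    e.toBasis.det (fun i => vc e fun a => A a i) = A.det := by
  rw [Module.Basis.det_apply]
  congr 1
  ext a i
  rw [Module.Basis.toMatrix_apply]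
  have : e.toBasis.repr (vc e fun a => A a i) a = A a i := by
    rw [OrthonormalBasis.coe_toBasis_repr_apply, OrthonormalBasis.repr_apply_apply]
    unfold vc
    rw [inner_sum]
    simp only [inner_smul_right, orthonormal_iff_ite.1 e.orthonormal]
    simp
  exact this

/-- The estimate, with unimodular frames. -/
theorem point_uni (hR : AlgCurv R) (hs : SecLE R 0) (hp : Ptolemaic R) {κ : ℝ} (hκ : 0 ≤ κ)
    (hu : UnimodularLE e R κ) : Hopf6.gbc e R ≤ -(1 / 50 * roundGB κ) := by
  have hq : ∀ x y, 0 ≤ qq (ng e R) x y := fun x y => by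
    have := qq_ng_ge e hR hs x y
    rwa [zero_mul] at this
  have h1 := core_six (tn_curv e (neg_curv hR)) hq (ptol_ng e hR hp) hκ (fun A hA => by
    have h2 := hu (fun i => vc e fun a => A a i) (by rw [det_vc, hA])
    have h3 := sc_ng e hR A
    unfold ng at h3
    rw [h3]
    linarith)
  rw [Hopf6.gb_neg] at h1
  have hpi := Real.pi_pos
  rw [Hopf6.gbc_eq]
  calc 1 / ((8 * Real.pi) ^ 3 * 6) * gb (tn e R) ≤
      1 / ((8 * Real.pi) ^ 3 * 6) * (-(5760 / 50 * κ ^ 3)) :=
        mul_le_mul_of_nonneg_left (by linarith) (by positivity)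
    _ = -(1 / 50 * roundGB κ) := by
        unfold roundGB
        field_simp
        norm_num
        ring

/-- A bound of the sectional curvature gives the bound in unimodular frames. -/
theorem uni_of_sec (hR : AlgCurv R) {κ : ℝ} (hκ : 0 ≤ κ) (h : SecLE R κ) : UnimodularLE e R κ := by
  intro u hu
  let A : Matrix (Fin 6) (Fin 6) ℝ := fun a i => e.repr (u i) a
  have hvc : ∀ i, (vc e fun a => A a i) = u i := by
    intro i
    unfold vc
    exact e.sum_repr (u i)
  have hdet : A.det = 1 := by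
    rw [← det_vc e A, ← hu]
    congr 1
    funext i
    exact hvc i
  have h1 := sc_ng e hR A
  simp only [hvc] at h1
  have h2 := area_sum A hdet
  have h3 : κ * ∑ a, ∑ c, area2 (fun i => A i a) (fun i => A i c) ≤ sc (act A (ng e R)) := by
    rw [sc_act, Finset.mul_sum]
    refine Finset.sum_le_sum fun a _ => ?_
    rw [Finset.mul_sum]
    exact Finset.sum_le_sum fun c _ => qq_ng_ge e hR h _ _
  have h4 := mul_le_mul_of_nonneg_left h2 hκ
  linarith

theorem sec_mono {κ : ℝ} (hκ : 0 ≤ κ) (h : SecLE R κ) : SecLE R 0 := fun x y hx hy hxy => by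
  have := h x y hx hy hxy
  linarith

/-- The estimate. -/
theorem point_sec (hR : AlgCurv R) {κ : ℝ} (hκ : 0 ≤ κ) (hs : SecLE R κ) (hp : Ptolemaic R) :
    Hopf6.gbc e R ≤ -(1 / 50 * roundGB κ) :=
  point_uni e hR (sec_mono hκ hs) hp hκ (uni_of_sec e hR hκ hs)

theorem sk_ng (h : SecondKindNonpos e R) : SK (ng e R) := by
  intro g hg h0
  have h1 := h g hg h0
  have h2 : ∑ i, ∑ j, ∑ k, ∑ l, ng e R i j k l * (g i l * g j k) =
      - ∑ i, ∑ j, ∑ k, ∑ l, R (e i) (e j) (e k) (e l) * (g i l * g j k) := by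
    simp only [← Finset.sum_neg_distrib]
    refine Finset.sum_congr rfl fun i _ => Finset.sum_congr rfl fun j _ =>
      Finset.sum_congr rfl fun k _ => Finset.sum_congr rfl fun l _ => ?_
    simp only [ng, tn]
    ring
  rw [h2]
  linarith

/-- Nonpositive curvature operators of the second kind are Ptolemaic. -/
theorem second_kind (hR : AlgCurv R) (h : SecondKindNonpos e R) :
    SecLE R 0 ∧ ∀ x y z w : V, R x y x y * R z w z w ≤
      (Real.sqrt (R x z x z * R y w y w) + Real.sqrt (R x w x w * R y z y z)) ^ 2 := by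
  have hT := tn_curv e (neg_curv hR)
  have hS := sk_ng e h
  have hq : ∀ x y : V, R x y x y = - qq (ng e R) (fun a => e.repr x a) (fun a => e.repr y a) := by
    intro x y
    rw [qq_ng e hR]
    have h1 : ∀ x : V, (vc e fun a => e.repr x a) = x := fun x => e.sum_repr x
    rw [h1, h1]
    ring
  refine ⟨fun x y _ _ _ => ?_, fun x y z w => ?_⟩
  · rw [hq]
    have := sk_nonneg hT hS (fun a => e.repr x a) (fun a => e.repr y a)
    unfold ng
    linarith
  · have := sk_ptol hT hS (fun a => e.repr x a) (fun a => e.repr y a) (fun a => e.repr z a)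
      (fun a => e.repr w a)
    simp only [hq, neg_mul_neg]
    exact this

end

end Pool.Agent.H38HP
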